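import Pool.Agent.N890.FG.Stm0

/-!
Project FG (helper890), part BAS: integral elements (helper227).
-/

set_option autoImplicit false

namespace Pool.Agent.N890.FG.BAS

open Pool.Agent.N890.FG

theorem mem_iff {k₁ k' : Type} [Field k₁] [Field k'] [Algebra k₁ k'] (T : k')
    (x : AlgebraicClosure k') : x ∈ B k₁ T ↔ IsIntegral (Algebra.adjoin k₁ {T}) x := Iff.rfl

theorem t_BAS : S_BAS := by
  intro k₁ k' _ _ _ T e
  refine ⟨fun y => ?_, ?_, fun g x hx => ?_⟩
  · rw [mem_iff]
    have h1 : IsIntegral k₁ y := (AlgebraicClosure.isAlgebraic k₁).isIntegral.isIntegral y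
    have h2 : IsIntegral k₁ (e y) := h1.map e
    exact h2.tower_top
  · rw [mem_iff]
    exact isIntegral_algebraMap (R := Algebra.adjoin k₁ {T}) (A := AlgebraicClosure k')
      (x := ⟨T, Algebra.subset_adjoin (Set.mem_singleton T)⟩)
  · rw [mem_iff] at hx ⊢
    exact hx.map g

end Pool.Agent.N890.FG.BAS
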