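import Pool.Agent.N890.FG.Stm

/-!
# Project FG (helper890), part CHG: change of the embedding of the algebraic closure in the local
condition (by helper565)
-/

set_option autoImplicit false

namespace Pool.Agent.N890.FG.CHG

open Pool.Agent.N890.FG WeierstrassCurve Pool.Agent.TH942 Pool.Agent.TH954

/-- two embeddings of the algebraic closure which agree on `k` are conjugate -/
theorem conj {F k L : Type} [Field F] [Field k] [Field L] [Algebra F k] [Algebra F L]
    (ι ι' : AlgebraicClosure k →ₐ[F] AlgebraicClosure L) (φ : k →+* L)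
    (h : ∀ x, ι (algebraMap k _ x) = algebraMap L _ (φ x))
    (h' : ∀ x, ι' (algebraMap k _ x) = algebraMap L _ (φ x)) :
    ∃ g : AlgebraicClosure k ≃ₐ[k] AlgebraicClosure k, ∀ z, ι (g z) = ι' z := by
  let a₁ : Algebra k (AlgebraicClosure L) := ((algebraMap L (AlgebraicClosure L)).comp φ).toAlgebra
  let a₂ : Algebra (AlgebraicClosure k) (AlgebraicClosure L) := ι.toRingHom.toAlgebra
  have : IsScalarTower k (AlgebraicClosure k) (AlgebraicClosure L) :=
    IsScalarTower.of_algebraMap_eq fun x => (h x).symm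
  let f : AlgebraicClosure k →ₐ[k] AlgebraicClosure L :=
    { (ι' : AlgebraicClosure k →+* AlgebraicClosure L) with commutes' := fun x => h' x }
  refine ⟨f.restrictNormal' (AlgebraicClosure k), fun z => ?_⟩
  exact f.restrictNormal_commutes (AlgebraicClosure k) z

open scoped Classical in
/-- **CHG** -/
theorem t_CHG : S_CHG := by
  intro F k L _ _ _ _ _ _ E N ξ hξ hN ι ι' φ hι hι' P Q hQ hσ
  obtain ⟨h, hh⟩ := conj ι ι' φ hι hι'
  refine ⟨Q + pm E ι (ξ h), ?_, ?_⟩
  · rw [nsmul_add, hQ, ← map_nsmul, hN, map_zero, add_zero]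
  · intro σ τ hτ
    have hτ' : ∀ z, ι ((h * τ * h⁻¹) z) = σ (ι z) := by
      intro z
      have e1 : (h * τ * h⁻¹) z = h (τ (h⁻¹ z)) := rfl
      have e2 : h (h⁻¹ z) = z := h.apply_symm_apply z
      rw [e1, hh, hτ, ← hh, e2]
    have h1 := hσ σ (h * τ * h⁻¹) hτ'
    have h2 := hξ (h * τ * h⁻¹) h
    have h3 := hξ h τ
    rw [inv_mul_cancel_right, h3] at h2
    have h4 := congrArg (pm E ι) h2
    rw [map_add, map_add, h1] at h4
    have h5 : pm E ι (act E h (ξ τ)) = pm E ι' (ξ τ) := by
      unfold act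
      rw [pm_pm]
      congr 2
      exact AlgHom.ext hh
    have h6 : pm E ι (act E (h * τ * h⁻¹) (ξ h)) = act E σ (pm E ι (ξ h)) := by
      unfold act
      rw [pm_pm, pm_pm]
      congr 2
      exact AlgHom.ext hτ'
    rw [h5, h6] at h4
    rw [act_add, eq_sub_of_add_eq' h4]
    abel

end Pool.Agent.N890.FG.CHG
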