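import Pool.Agent.N890.FG.Stm0

set_option autoImplicit false

/-!
CNJ: specialisations at the same point are conjugate; all automorphisms of the algebraic closure of
`k₁` are induced by automorphisms of the algebraic closure of `k'` (project FG).
-/

namespace Pool.Agent.N890.FG.CNJ

open Pool.Agent.N890.FG

open Pointwise in
/-- transitivity on the primes and surjectivity of the decomposition group, in terms of
homomorphisms to a field -/
theorem conj_abs {A B κ : Type} [CommRing A] [CommRing B] [Algebra A B] [Field κ]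
    {G : Type} [Group G] [MulSemiringAction G B] [SMulCommClass G A B]
    [TopologicalSpace G] [CompactSpace G] [TotallyDisconnectedSpace G]
    [IsTopologicalGroup G] [TopologicalSpace B] [DiscreteTopology B] [ContinuousSMul G B]
    [Algebra.IsInvariant A B G] (π π' : B →+* κ) (hπ : Function.Surjective π)
    (hπ' : Function.Surjective π') (τ : κ ≃+* κ)
    (h : ∀ a : A, τ (π (algebraMap A B a)) = π' (algebraMap A B a)) :
    ∃ g : G, ∀ x, π' (g • x) = τ (π x) := by
  have hp : (RingHom.ker π).IsPrime := RingHom.ker_isPrime π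
  have hp' : (RingHom.ker π').IsPrime := RingHom.ker_isPrime π'
  have hPQ : (RingHom.ker π).under A = (RingHom.ker π').under A := by
    ext a
    rw [Ideal.mem_comap, Ideal.mem_comap, RingHom.mem_ker, RingHom.mem_ker, ← h a]
    exact (map_eq_zero_iff τ τ.injective).symm
  obtain ⟨g0, hg0⟩ := Algebra.IsInvariant.exists_smul_of_under_eq_of_profinite (G := G)
    (RingHom.ker π) (RingHom.ker π') hPQ
  -- the homomorphism `ρ = τ⁻¹ ∘ π' ∘ g0`
  let ρ : B →+* κ := (τ.symm : κ →+* κ).comp (π'.comp (MulSemiringAction.toRingHom G B g0))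
  have hρ : ∀ x, ρ x = τ.symm (π' (g0 • x)) := fun x => rfl
  have hρs : Function.Surjective ρ := by
    intro y
    obtain ⟨x, hx⟩ := hπ' (τ y)
    refine ⟨g0⁻¹ • x, ?_⟩
    rw [hρ, smul_inv_smul, hx, RingEquiv.symm_apply_apply]
  have hker : RingHom.ker π = RingHom.ker ρ := by
    ext x
    rw [RingHom.mem_ker, RingHom.mem_ker, hρ, map_eq_zero_iff τ.symm τ.symm.injective,
      ← RingHom.mem_ker, ← RingHom.mem_ker, hg0, Ideal.smul_mem_pointwise_smul_iff]
  let u : (B ⧸ RingHom.ker π) ≃+* κ := RingHom.quotientKerEquivOfSurjective hπ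
  let v : (B ⧸ RingHom.ker π) ≃+* κ :=
    (Ideal.quotEquivOfEq hker).trans (RingHom.quotientKerEquivOfSurjective hρs)
  have hu : ∀ x, u (Ideal.Quotient.mk _ x) = π x := fun x => rfl
  have hv : ∀ x, v (Ideal.Quotient.mk _ x) = ρ x := fun x => rfl
  let P : Ideal A := (RingHom.ker π).under A
  have hlies : (RingHom.ker π).LiesOver P := ⟨rfl⟩
  let σ : (B ⧸ RingHom.ker π) ≃ₐ[A ⧸ P] (B ⧸ RingHom.ker π) :=
    AlgEquiv.ofRingEquiv (f := u.trans v.symm) (by
      intro r
      obtain ⟨a, rfl⟩ := Ideal.Quotient.mk_surjective r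
      rw [RingEquiv.trans_apply, RingEquiv.symm_apply_eq]
      change u (Ideal.Quotient.mk _ (algebraMap A B a)) = v (Ideal.Quotient.mk _ (algebraMap A B a))
      rw [hu, hv, hρ, smul_algebraMap, ← h a, RingEquiv.symm_apply_apply])
  obtain ⟨d, hd⟩ := Ideal.Quotient.stabilizerHom_surjective_of_profinite (G := G) P
    (RingHom.ker π) σ
  refine ⟨g0 * d.1, fun x => ?_⟩
  have h1 : σ (Ideal.Quotient.mk _ x) = Ideal.Quotient.mk _ (d.1 • x) := by
    rw [← hd]
    rfl
  have h2 : v (σ (Ideal.Quotient.mk _ x)) = u (Ideal.Quotient.mk _ x) := by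
    change v (v.symm (u (Ideal.Quotient.mk _ x))) = _
    rw [RingEquiv.apply_symm_apply]
  rw [h1, hv, hu, hρ, RingEquiv.symm_apply_eq] at h2
  rw [mul_smul, h2]

section main

variable {k₁ k' : Type} [Field k₁] [Field k'] [Algebra k₁ k'] {T : k'}

theorem int_closed (hT : Transcendental k₁ T) : IsIntegrallyClosed (Algebra.adjoin k₁ {T}) := by
  have := hT.uniqueFactorizationMonoid_adjoin
  infer_instance

theorem frac (hR : IntermediateField.adjoin k₁ {T} = ⊤) :
    IsFractionRing (Algebra.adjoin k₁ {T}) k' := by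
  refine IsFractionRing.of_field _ _ fun z => ?_
  have hz : z ∈ IntermediateField.adjoin k₁ {T} := by rw [hR]; trivial
  obtain ⟨x, hx, y, hy, he⟩ := IntermediateField.mem_adjoin_iff_div.mp hz
  exact ⟨⟨x, hx⟩, ⟨y, hy⟩, he⟩

/-- images of the elements of `k₁ [T]` -/
theorem mem_alg {x : k'} (hx : x ∈ Algebra.adjoin k₁ {T}) :
    algebraMap k' (AlgebraicClosure k') x ∈ B k₁ T :=
  isIntegral_algebraMap (R := Algebra.adjoin k₁ {T}) (A := AlgebraicClosure k') (x := ⟨x, hx⟩)

theorem mem_alg' (c : k₁) : algebraMap k₁ (AlgebraicClosure k') c ∈ B k₁ T := by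
  have h := mem_alg (T := T) (Subalgebra.algebraMap_mem (Algebra.adjoin k₁ {T}) c)
  rwa [← IsScalarTower.algebraMap_apply k₁ k' (AlgebraicClosure k')] at h

theorem mem_e (e : AlgebraicClosure k₁ →ₐ[k₁] AlgebraicClosure k') (y : AlgebraicClosure k₁) :
    e y ∈ B k₁ T := by
  have h1 : IsIntegral k₁ y := Algebra.IsIntegral.isIntegral y
  have h2 : IsIntegral k₁ (e y) := h1.map e
  have h3 : IsIntegral (Algebra.adjoin k₁ {T}) (e y) := h2.tower_top
  exact h3

theorem mem_g (g : AlgebraicClosure k' ≃ₐ[k'] AlgebraicClosure k') {x : AlgebraicClosure k'}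
    (hx : x ∈ B k₁ T) : g x ∈ B k₁ T := by
  have h1 : IsIntegral (Algebra.adjoin k₁ {T}) x := hx
  have h2 : IsIntegral (Algebra.adjoin k₁ {T}) (g x) :=
    h1.map ((g : AlgebraicClosure k' →ₐ[k'] AlgebraicClosure k').restrictScalars
      (Algebra.adjoin k₁ {T}))
  exact h2

/-- the action of the Galois group on the ring `B` -/
@[reducible] noncomputable def act :
    MulSemiringAction (AlgebraicClosure k' ≃ₐ[k'] AlgebraicClosure k') (B k₁ T) where
  smul g x := ⟨g x.1, mem_g g x.2⟩
  one_smul _ := rfl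
  mul_smul _ _ _ := rfl
  smul_zero g := Subtype.ext (map_zero g)
  smul_add g x y := Subtype.ext (map_add g x.1 y.1)
  smul_one g := Subtype.ext (map_one g)
  smul_mul g x y := Subtype.ext (map_mul g x.1 y.1)

/-- `B` as an algebra over `k₁ [T]` -/
@[reducible] noncomputable def alg : Algebra (Algebra.adjoin k₁ {T}) (B k₁ T) :=
  RingHom.toAlgebra
    { toFun := fun a => ⟨algebraMap k' (AlgebraicClosure k') a.1, mem_alg a.2⟩
      map_one' := Subtype.ext (map_one _)
      map_mul' := fun _ _ => Subtype.ext (map_mul _ _ _)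
      map_zero' := Subtype.ext (map_zero _)
      map_add' := fun _ _ => Subtype.ext (map_add _ _ _) }

theorem root_mem (e : AlgebraicClosure k₁ →ₐ[k₁] AlgebraicClosure k')
    (g : AlgebraicClosure k' ≃ₐ[k'] AlgebraicClosure k') (y : AlgebraicClosure k₁) :
    ∃ z, g (e y) = e z := by
  have hy : IsIntegral k₁ y := Algebra.IsIntegral.isIntegral y
  let p := minpoly k₁ y
  have hp : p ≠ 0 := minpoly.ne_zero hy
  have h1 : Polynomial.aeval (g (e y)) p = 0 := by
    have h2 : Polynomial.aeval (e y) p = 0 := by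
      rw [Polynomial.aeval_algHom_apply, minpoly.aeval, map_zero]
    have h3 := Polynomial.aeval_algHom_apply
      ((g : AlgebraicClosure k' →ₐ[k'] AlgebraicClosure k').restrictScalars k₁) (e y) p
    rw [h2, map_zero] at h3
    exact h3
  have hs : (p.map (algebraMap k₁ (AlgebraicClosure k₁))).Splits := IsAlgClosed.splits _
  have h4 : g (e y) ∈ (((p.map (algebraMap k₁ (AlgebraicClosure k₁))).map
      (e : AlgebraicClosure k₁ →+* AlgebraicClosure k')).roots) := by
    have hc : (e : AlgebraicClosure k₁ →+* AlgebraicClosure k').comp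
        (algebraMap k₁ (AlgebraicClosure k₁)) = algebraMap k₁ (AlgebraicClosure k') :=
      e.comp_algebraMap
    rw [Polynomial.map_map, hc, Polynomial.mem_roots
      (Polynomial.map_ne_zero hp), Polynomial.IsRoot.def, Polynomial.eval_map]
    rw [Polynomial.aeval_def] at h1
    exact h1
  rw [hs.roots_map, Multiset.mem_map] at h4
  obtain ⟨z, _, hz⟩ := h4
  exact ⟨z, hz.symm⟩

end main

theorem t_CNJ : S_CNJ := by
  intro k₁ k' _ _ _ _ T hR e t₀ π π' hπ hπ' τ
  have hk' : CharZero k' := charZero_of_injective_algebraMap (algebraMap k₁ k').injective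
  have hgal : IsGalois k' (AlgebraicClosure k') := inferInstance
  have hic := int_closed hR.1
  have hfr := frac hR.2
  let iact := act (k₁ := k₁) (T := T)
  let ialg := alg (k₁ := k₁) (T := T)
  let itop : TopologicalSpace (B k₁ T) := ⊥
  have hdisc : DiscreteTopology (B k₁ T) := ⟨rfl⟩
  have hval : ∀ (g : AlgebraicClosure k' ≃ₐ[k'] AlgebraicClosure k') (x : B k₁ T),
      (g • x).1 = g x.1 := fun g x => rfl
  have hcomm : SMulCommClass (AlgebraicClosure k' ≃ₐ[k'] AlgebraicClosure k')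
      (Algebra.adjoin k₁ {T}) (B k₁ T) := by
    refine ⟨fun g a x => ?_⟩
    rw [Algebra.smul_def, Algebra.smul_def]
    apply Subtype.ext
    change g (algebraMap k' (AlgebraicClosure k') a.1 * x.1) =
      algebraMap k' (AlgebraicClosure k') a.1 * g x.1
    rw [map_mul, AlgEquiv.commutes]
  have hcont : ContinuousSMul (AlgebraicClosure k' ≃ₐ[k'] AlgebraicClosure k') (B k₁ T) := by
    rw [continuousSMul_iff_stabilizer_isOpen]
    intro x
    convert stabilizer_isOpen_of_isIntegral (K := k') (L := AlgebraicClosure k') x.1 using 1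
    ext g
    rw [SetLike.mem_coe, SetLike.mem_coe, MulAction.mem_stabilizer_iff,
      MulAction.mem_stabilizer_iff]
    exact Subtype.ext_iff
  have hinv : Algebra.IsInvariant (Algebra.adjoin k₁ {T}) (B k₁ T)
      (AlgebraicClosure k' ≃ₐ[k'] AlgebraicClosure k') := by
    refine ⟨fun b hb => ?_⟩
    have h1 : ∀ g : AlgebraicClosure k' ≃ₐ[k'] AlgebraicClosure k', g b.1 = b.1 := by
      intro g
      exact congrArg Subtype.val (hb g)
    have h2 := (InfiniteGalois.mem_bot_iff_fixed (k := k') b.1).2 h1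
    rw [IntermediateField.mem_bot] at h2
    obtain ⟨c, hc⟩ := h2
    have h3 : IsIntegral (Algebra.adjoin k₁ {T}) b.1 := b.2
    rw [← hc, isIntegral_algebraMap_iff (FaithfulSMul.algebraMap_injective k' _)] at h3
    obtain ⟨a, ha⟩ := IsIntegrallyClosed.algebraMap_eq_of_integral h3
    refine ⟨a, Subtype.ext ?_⟩
    rw [← hc, ← ha]
    rfl
  have hs : ∀ ϖ : B k₁ T →+* AlgebraicClosure k₁, IsSp e T t₀ ϖ → Function.Surjective ϖ :=
    fun ϖ hϖ y => ⟨⟨e y, mem_e e y⟩, hϖ.1 y _⟩
  have hc : ∀ ϖ : B k₁ T →+* AlgebraicClosure k₁, IsSp e T t₀ ϖ → ∀ c : k₁,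
      ∀ hc : algebraMap k' (AlgebraicClosure k') (algebraMap k₁ k' c) ∈ B k₁ T,
        ϖ ⟨algebraMap k' (AlgebraicClosure k') (algebraMap k₁ k' c), hc⟩ =
          algebraMap k₁ (AlgebraicClosure k₁) c := by
    intro ϖ hϖ c hc
    have h1 := hϖ.1 (algebraMap k₁ (AlgebraicClosure k₁) c) (mem_e e _)
    rw [← h1]
    congr 1
    apply Subtype.ext
    change algebraMap k' (AlgebraicClosure k') (algebraMap k₁ k' c) = e _
    rw [AlgHom.commutes]
    exact (IsScalarTower.algebraMap_apply k₁ k' (AlgebraicClosure k') c).symm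
  have hcomp : ∀ a : Algebra.adjoin k₁ {T},
      (τ : AlgebraicClosure k₁ ≃+* AlgebraicClosure k₁) (π (algebraMap _ (B k₁ T) a)) =
        π' (algebraMap _ (B k₁ T) a) := by
    rintro ⟨a, ha⟩
    change τ (π ⟨algebraMap k' (AlgebraicClosure k') a, mem_alg ha⟩) =
      π' ⟨algebraMap k' (AlgebraicClosure k') a, mem_alg ha⟩
    induction ha using Algebra.adjoin_induction with
    | mem x hx =>
      rw [Set.mem_singleton_iff] at hx
      subst hx
      rw [hπ.2, hπ'.2, AlgEquiv.commutes]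
    | algebraMap c => rw [hc π hπ, hc π' hπ', AlgEquiv.commutes]
    | add x y hx hy h1 h2 =>
      have e1 : (⟨algebraMap k' (AlgebraicClosure k') (x + y), mem_alg (add_mem hx hy)⟩ : B k₁ T) =
          ⟨algebraMap k' (AlgebraicClosure k') x, mem_alg hx⟩ +
          ⟨algebraMap k' (AlgebraicClosure k') y, mem_alg hy⟩ := Subtype.ext (map_add _ _ _)
      rw [e1, map_add, map_add, map_add, h1, h2]
    | mul x y hx hy h1 h2 =>
      have e1 : (⟨algebraMap k' (AlgebraicClosure k') (x * y), mem_alg (mul_mem hx hy)⟩ : B k₁ T) =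
          ⟨algebraMap k' (AlgebraicClosure k') x, mem_alg hx⟩ *
          ⟨algebraMap k' (AlgebraicClosure k') y, mem_alg hy⟩ := Subtype.ext (map_mul _ _ _)
      rw [e1, map_mul, map_mul, map_mul, h1, h2]
  obtain ⟨g, hg⟩ := conj_abs (A := Algebra.adjoin k₁ {T}) (B := B k₁ T)
    (G := AlgebraicClosure k' ≃ₐ[k'] AlgebraicClosure k') π π' (hs π hπ) (hs π' hπ')
    (τ : AlgebraicClosure k₁ ≃+* AlgebraicClosure k₁) hcomp
  have hg' : ∀ x (hx : x ∈ B k₁ T) (hgx : g x ∈ B k₁ T), π' ⟨g x, hgx⟩ = τ (π ⟨x, hx⟩) :=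
    fun x hx _ => hg ⟨x, hx⟩
  refine ⟨g, fun y => ?_, hg'⟩
  obtain ⟨z, hz⟩ := root_mem e g y
  have h1 := hg' (e y) (mem_e e y) (mem_g g (mem_e e y))
  rw [hπ.1] at h1
  have h2 : (⟨g (e y), mem_g g (mem_e e y)⟩ : B k₁ T) = ⟨e z, mem_e e z⟩ := Subtype.ext hz
  rw [h2, hπ'.1] at h1
  rw [hz, h1]

end Pool.Agent.N890.FG.CNJ
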