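import Pool.Agent.N890.FG.Stm
import Pool.Agent.R425.D.Div
import Pool.Agent.Y791.BS.Loc

/-!
Project FG (helper890), part FNQ (helper169): the weak Mordell-Weil theorem over the completions of
a number field: `E(L) / N` is finite. Points near the origin are divisible by `N` (Newton
iteration, only with `x`-coordinates), and the group of points modulo a neighbourhood of the origin
is finite.
-/

set_option autoImplicit false
set_option linter.all false

namespace Pool.Agent.N890.FG.FNQ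

open NumberField WeierstrassCurve IsDedekindDomain Pool.Agent.TH942 Pool.Agent.TH954 Filter
open Pool.Agent.N890.FG
open scoped Topology Classical

section alg

variable {L : Type} [Field L] {W : WeierstrassCurve L}

/-- the inverse of the `x`-coordinate -/
noncomputable def uu : W.toAffine.Point → L
  | .zero => 0
  | .some x _ _ => x⁻¹

lemma uu_zero : uu (0 : W.toAffine.Point) = 0 := rfl

lemma uu_some {x y : L} (h : W.toAffine.Nonsingular x y) :
    uu (Affine.Point.some x y h) = x⁻¹ := rfl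

lemma uu_neg (hW : Short W) (T : W.toAffine.Point) : uu (-T) = uu T := by
  match T with
  | .zero => rfl
  | .some x y h =>
    rw [hW.neg_some h]
    rfl

/-- the denominator -/
noncomputable def Dl (a b u v : L) : L := (1 - a * u * v) ^ 2 - 4 * b * u * v * (u + v)

end alg

section

variable {L : Type} [NormedField L] [IsUltrametricDist L] {W : WeierstrassCurve L}

lemma uu_le {R : ℝ} (hR : 0 < R) {T : W.toAffine.Point} (hT : Big R T) : ‖uu T‖ ≤ R⁻¹ := by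
  match T with
  | .zero =>
    show ‖(0 : L)‖ ≤ R⁻¹
    rw [norm_zero]
    positivity
  | .some x y h =>
    have hx := big_some.mp hT
    rw [uu_some, norm_inv]
    exact inv_anti₀ hR hx

lemma big_of_uu {R ρ : ℝ} (hR : 1 < R) (hρ : 0 < ρ) {T : W.toAffine.Point} (hT : Big R T)
    (h : ‖uu T‖ ≤ ρ⁻¹) : Big ρ T := by
  match T with
  | .zero => exact big_zero _
  | .some x y n =>
    have hx := big_some.mp hT
    have hx0 : 0 < ‖x‖ := by linarith
    rw [uu_some, norm_inv] at h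
    rw [big_some]
    exact (inv_le_inv₀ hx0 hρ).1 h

/-- the doubling -/
lemma rel_dbl (hW : SI W) (h2 : (2 : L) ≠ 0) {R : ℝ} (hR : 1 < R) {P : W.toAffine.Point}
    (hP : Big R P) :
    Dl W.a₄ W.a₆ (uu P) (uu P) * uu (P + P) =
      2 * ((uu P + uu P) * (1 + W.a₄ * uu P * uu P) + 2 * W.a₆ * uu P ^ 2 * uu P ^ 2) := by
  have hPP : Big R (P + P) := hW.big_add h2 hR hP hP
  match P with
  | .zero =>
    have : (Affine.Point.zero + Affine.Point.zero : W.toAffine.Point) = 0 := zero_add _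
    rw [this, uu_zero]
    have h0 : uu (Affine.Point.zero : W.toAffine.Point) = 0 := rfl
    rw [h0]
    ring
  | .some x y n =>
    have hx := big_some.mp hP
    have hx1 : 1 < ‖x‖ := hR.trans_le hx
    have hx0 : x ≠ 0 := norm_pos_iff.1 (by linarith)
    have hy0 : y ≠ 0 := norm_pos_iff.1 (hW.norm_y_pos n hx1)
    have he := hW.toShort.eqn n
    generalize hS : Affine.Point.some x y n + Affine.Point.some x y n = Sp at hPP ⊢
    match Sp with
    | .zero =>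
      exfalso
      have h1 : Affine.Point.some x y n = -(Affine.Point.some x y n) := eq_neg_of_add_eq_zero_left hS
      rw [hW.toShort.neg_some, Affine.Point.some.injEq] at h1
      have h3 : 2 * y = 0 := by linear_combination h1.2
      rcases mul_eq_zero.1 h3 with h3 | h3
      · exact h2 h3
      · exact hy0 h3
    | .some X Y n' =>
      obtain ⟨-, -, hX⟩ := hW.toShort.add_eq hS
      have hX1 := big_some.mp hPP
      have hX0 : X ≠ 0 := norm_pos_iff.1 (by linarith)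
      have h4 : 4 * (x ^ 3 + W.a₄ * x + W.a₆) * X = (x ^ 2 - W.a₄) ^ 2 - 8 * W.a₆ * x := by
        rw [← he, hX]
        field_simp
        linear_combination (-32 * x) * he
      rw [uu_some, uu_some, Dl]
      have e : (1 - W.a₄ * x⁻¹ * x⁻¹) ^ 2 - 4 * W.a₆ * x⁻¹ * x⁻¹ * (x⁻¹ + x⁻¹) =
          ((x ^ 2 - W.a₄) ^ 2 - 8 * W.a₆ * x) / x ^ 4 := by
        field_simp
        ring
      rw [e, ← h4]
      field_simp
      ring

/-- sums and products of the `x`-coordinates of sum and difference -/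
lemma rel (hW : SI W) (h2 : (2 : L) ≠ 0) {R : ℝ} (hR : 1 < R) {P Q : W.toAffine.Point}
    (hP : Big R P) (hQ : Big R Q) :
    Dl W.a₄ W.a₆ (uu P) (uu Q) * (uu (P + Q) + uu (P - Q)) =
      2 * ((uu P + uu Q) * (1 + W.a₄ * uu P * uu Q) + 2 * W.a₆ * uu P ^ 2 * uu Q ^ 2) ∧
    Dl W.a₄ W.a₆ (uu P) (uu Q) * (uu (P + Q) * uu (P - Q)) = (uu P - uu Q) ^ 2 := by
  have hPQ : Big R (P + Q) := hW.big_add h2 hR hP hQ
  have hPQ' : Big R (P - Q) := hW.big_sub h2 hR hP hQ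
  by_cases hQ0 : Q = 0
  · subst hQ0
    rw [add_zero, sub_zero, uu_zero, Dl]
    constructor <;> ring
  by_cases hP0 : P = 0
  · subst hP0
    rw [zero_add, zero_sub, uu_zero, uu_neg hW.toShort, Dl]
    constructor <;> ring
  by_cases h1 : P = Q
  · subst h1
    have := rel_dbl hW h2 hR hP
    rw [sub_self, uu_zero, add_zero, mul_zero, mul_zero, sub_self]
    exact ⟨this, by ring⟩
  by_cases h3 : P = -Q
  · have h4 : Q = -P := by rw [h3, neg_neg]
    have := rel_dbl hW h2 hR hP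
    rw [h4, add_neg_cancel, sub_neg_eq_add, uu_neg hW.toShort, uu_zero, zero_add, zero_mul,
      mul_zero, sub_self]
    exact ⟨this, by ring⟩
  match P, Q with
  | .zero, _ => exact absurd rfl hP0
  | .some x1 y1 n1, .zero => exact absurd rfl hQ0
  | .some x1 y1 n1, .some x2 y2 n2 =>
    have e1 := hW.toShort.eqn n1
    have e2 := hW.toShort.eqn n2
    have hx : x1 ≠ x2 := by
      intro hx
      subst hx
      have hy : y1 = y2 ∨ y1 = -y2 := by
        apply sq_eq_sq_iff_eq_or_eq_neg.mp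
        rw [e1, e2]
      rcases hy with hy | hy
      · apply h1
        subst hy
        rfl
      · apply h3
        rw [hW.toShort.neg_some]
        subst hy
        rfl
    have r1 := big_some.mp hP
    have r2 := big_some.mp hQ
    have hx1 : x1 ≠ 0 := norm_pos_iff.1 (by linarith)
    have hx2 : x2 ≠ 0 := norm_pos_iff.1 (by linarith)
    have hD : x1 - x2 ≠ 0 := sub_ne_zero.mpr hx
    generalize hS : Affine.Point.some x1 y1 n1 + Affine.Point.some x2 y2 n2 = Sp at hPQ ⊢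
    generalize hS' : Affine.Point.some x1 y1 n1 - Affine.Point.some x2 y2 n2 = Sm at hPQ' ⊢
    match Sp, Sm with
    | .zero, _ => exact absurd (eq_neg_of_add_eq_zero_left hS) h3
    | .some X Y n, .zero => exact absurd (sub_eq_zero.1 hS') h1
    | .some X Y n, .some X' Y' n' =>
      have hX := hW.toShort.add_ne hS hx
      rw [sub_eq_add_neg, hW.toShort.neg_some] at hS'
      have hX' := hW.toShort.add_ne hS' hx
      have r3 := big_some.mp hPQ
      have r4 := big_some.mp hPQ'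
      have hX0 : X ≠ 0 := norm_pos_iff.1 (by linarith)
      have hX0' : X' ≠ 0 := norm_pos_iff.1 (by linarith)
      have hX4 : X * (x1 - x2) ^ 2 = (y1 - y2) ^ 2 - (x1 + x2) * (x1 - x2) ^ 2 := by
        rw [hX]
        field_simp
        ring
      have hX4' : X' * (x1 - x2) ^ 2 = (y1 + y2) ^ 2 - (x1 + x2) * (x1 - x2) ^ 2 := by
        rw [hX']
        field_simp
        ring
      have f1 : (x1 - x2) ^ 2 * (X + X') = 2 * ((x1 + x2) * (x1 * x2 + W.a₄) + 2 * W.a₆) := by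
        linear_combination hX4 + hX4' + 2 * e1 + 2 * e2
      have f2 : (x1 - x2) ^ 2 * (X * X') = (x1 * x2 - W.a₄) ^ 2 - 4 * W.a₆ * (x1 + x2) := by
        have hD2 : (x1 - x2) ^ 2 ≠ 0 := pow_ne_zero _ hD
        apply mul_left_cancel₀ hD2
        have h5 : (x1 - x2) ^ 2 * ((x1 - x2) ^ 2 * (X * X')) =
            (X * (x1 - x2) ^ 2) * (X' * (x1 - x2) ^ 2) := by ring
        rw [h5, hX4, hX4']
        have h6 : ((y1 - y2) ^ 2 - (x1 + x2) * (x1 - x2) ^ 2) *
            ((y1 + y2) ^ 2 - (x1 + x2) * (x1 - x2) ^ 2) =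
            (y1 ^ 2 - y2 ^ 2) ^ 2 - 2 * (x1 + x2) * (x1 - x2) ^ 2 * (y1 ^ 2 + y2 ^ 2) +
              (x1 + x2) ^ 2 * (x1 - x2) ^ 4 := by ring
        rw [h6, e1, e2]
        ring
      rw [uu_some, uu_some, uu_some, uu_some, Dl]
      have e : (1 - W.a₄ * x1⁻¹ * x2⁻¹) ^ 2 - 4 * W.a₆ * x1⁻¹ * x2⁻¹ * (x1⁻¹ + x2⁻¹) =
          ((x1 * x2 - W.a₄) ^ 2 - 4 * W.a₆ * (x1 + x2)) / (x1 ^ 2 * x2 ^ 2) := by
        field_simp
        ring
      rw [e, ← f2]
      constructor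
      · have g : 2 * ((x1⁻¹ + x2⁻¹) * (1 + W.a₄ * x1⁻¹ * x2⁻¹) + 2 * W.a₆ * x1⁻¹ ^ 2 * x2⁻¹ ^ 2) =
            (2 * ((x1 + x2) * (x1 * x2 + W.a₄) + 2 * W.a₆)) / (x1 ^ 2 * x2 ^ 2) := by
          field_simp
          ring
        rw [g, ← f1]
        field_simp
        ring
      · field_simp
        ring

lemma one_add_norm {z : L} (hz : ‖z‖ < 1) : ‖1 + z‖ = 1 := by
  rw [uadd_eq (by rwa [norm_one]), norm_one]

/-- the denominator is a unit near the origin -/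
lemma Dl_norm (hW : SI W) {u v : L} (hu : ‖u‖ < 1) (hv : ‖v‖ < 1) : ‖Dl W.a₄ W.a₆ u v‖ = 1 := by
  have huv : ‖u * v‖ < 1 := by
    rw [norm_mul]
    nlinarith [norm_nonneg u, norm_nonneg v]
  have e : Dl W.a₄ W.a₆ u v = 1 + (u * v) * (-2 * W.a₄ + W.a₄ * W.a₄ * (u * v) - 4 * W.a₆ * (u + v)) := by
    rw [Dl]
    ring
  have h1 : ‖-2 * W.a₄ + W.a₄ * W.a₄ * (u * v) - 4 * W.a₆ * (u + v)‖ ≤ 1 := by
    refine usub (uadd ?_ ?_) ?_
    · rw [neg_mul, norm_neg]
      exact umul u2 hW.ha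
    · rw [mul_assoc]
      exact umul hW.ha (umul hW.ha huv.le)
    · rw [mul_assoc]
      exact umul u4 (umul hW.hb (uadd hu.le hv.le))
  rw [e]
  apply one_add_norm
  rw [norm_mul]
  have := norm_nonneg (u * v)
  nlinarith

/-- multiplication by `k` near the origin -/
lemma main_est (hW : SI W) (h2 : (2 : L) ≠ 0) {R : ℝ} (hR : 1 < R) {T : W.toAffine.Point}
    (hT : Big R T) : ∀ k : ℕ, ‖uu (k • T) - (k : L) ^ 2 * uu T‖ ≤ ‖uu T‖ ^ 2 ∧
      ‖uu ((k + 1) • T) - ((k + 1 : ℕ) : L) ^ 2 * uu T‖ ≤ ‖uu T‖ ^ 2 := by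
  have ht : ‖uu T‖ < 1 := (uu_le (by linarith) hT).trans_lt (inv_lt_one_of_one_lt₀ hR)
  have ht0 := norm_nonneg (uu T)
  intro k
  induction k with
  | zero =>
    constructor
    · rw [zero_smul, uu_zero, Nat.cast_zero]
      have : (0 : L) - 0 ^ 2 * uu T = 0 := by ring
      rw [this, norm_zero]
      positivity
    · rw [zero_add, one_smul, Nat.cast_one]
      have : uu T - 1 ^ 2 * uu T = 0 := by ring
      rw [this, norm_zero]
      positivity
  | succ k ih =>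
    obtain ⟨ih1, ih2⟩ := ih
    refine ⟨ih2, ?_⟩
    have hk : Big R ((k + 1) • T) := hW.big_nsmul h2 hR hT _
    obtain ⟨hr, -⟩ := rel hW h2 hR hk hT
    have ea : (k + 1) • T + T = (k + 1 + 1) • T := (succ_nsmul T (k + 1)).symm
    have eb : (k + 1) • T - T = k • T := by
      rw [succ_nsmul, add_sub_cancel_right]
    rw [ea, eb] at hr
    generalize uu ((k + 1 + 1) • T) = v2 at hr ⊢
    generalize uu (k • T) = v0 at hr ih1
    -- the size of the middle term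
    have hv : ‖uu ((k + 1) • T)‖ ≤ ‖uu T‖ := by
      have e : uu ((k + 1) • T) = (uu ((k + 1) • T) - ((k + 1 : ℕ) : L) ^ 2 * uu T) +
          ((k + 1 : ℕ) : L) ^ 2 * uu T := by ring
      rw [e]
      refine uadd (ih2.trans (by nlinarith)) (umul ?_ le_rfl)
      rw [norm_pow]
      exact pow_le_one₀ (norm_nonneg _) (unat _)
    generalize uu ((k + 1) • T) = v1 at hr ih2 hv
    generalize uu T = t at *
    have hv1 : ‖v1‖ < 1 := lt_of_le_of_lt hv ht
    have hd := Dl_norm hW hv1 ht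
    have key : ‖v2 + v0 - 2 * v1 - 2 * t‖ ≤ ‖t‖ ^ 2 := by
      have e : Dl W.a₄ W.a₆ v1 t * (v2 + v0 - 2 * v1 - 2 * t) =
          (v1 * t) * (2 * ((v1 + t) * (W.a₄ * 3 - W.a₄ * (W.a₄ * (v1 * t)) +
            4 * (W.a₆ * (v1 + t)))) + 4 * (W.a₆ * (v1 * t))) := by
        have e1 : Dl W.a₄ W.a₆ v1 t * (v2 + v0 - 2 * v1 - 2 * t) =
          Dl W.a₄ W.a₆ v1 t * (v2 + v0) - Dl W.a₄ W.a₆ v1 t * (2 * v1 + 2 * t) := by ring
        rw [e1, hr, Dl]
        ring
      have h3 : ‖Dl W.a₄ W.a₆ v1 t * (v2 + v0 - 2 * v1 - 2 * t)‖ ≤ ‖t‖ ^ 2 := by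
        rw [e, norm_mul (v1 * t)]
        have hvt : ‖v1 * t‖ ≤ ‖t‖ ^ 2 := by
          rw [norm_mul, pow_two]
          exact mul_le_mul_of_nonneg_right hv ht0
        have hvt1 : ‖v1 * t‖ ≤ 1 := hvt.trans (pow_le_one₀ ht0 ht.le)
        have hs : ‖v1 + t‖ ≤ 1 := uadd hv1.le ht.le
        have h5 : ‖2 * ((v1 + t) * (W.a₄ * 3 - W.a₄ * (W.a₄ * (v1 * t)) +
            4 * (W.a₆ * (v1 + t)))) + 4 * (W.a₆ * (v1 * t))‖ ≤ 1 := by
          refine uadd (umul u2 (umul hs (uadd (usub (umul hW.ha u3) ?_) ?_))) ?_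
          · exact umul hW.ha (umul hW.ha hvt1)
          · exact umul u4 (umul hW.hb hs)
          · exact umul u4 (umul hW.hb hvt1)
        calc _ ≤ ‖t‖ ^ 2 * 1 := mul_le_mul hvt h5 (norm_nonneg _) (by positivity)
          _ = ‖t‖ ^ 2 := mul_one _
      rwa [norm_mul, hd, one_mul] at h3
    have e : v2 - ((k + 1 + 1 : ℕ) : L) ^ 2 * t =
        (v2 + v0 - 2 * v1 - 2 * t) + 2 * (v1 - ((k + 1 : ℕ) : L) ^ 2 * t) -
          (v0 - (k : L) ^ 2 * t) := by
      push_cast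
      ring
    rw [e]
    exact usub (uadd key (umul u2 ih2)) ih1

end

section

variable {L : Type} [NormedField L] [IsUltrametricDist L] [ProperSpace L] {W : WeierstrassCurve L}

/-- square roots -/
lemma exists_sqrt (h2 : (2 : L) ≠ 0) {δ : L} (hδ : ‖δ‖ < ‖(4 : L)‖) : ∃ s : L, s ^ 2 = 1 + δ := by
  have h4 : ‖(4 : L)‖ = ‖(2 : L)‖ ^ 2 := by
    rw [← norm_pow]
    norm_num
  have h20 : 0 < ‖(2 : L)‖ := norm_pos_iff.2 h2
  have h21 : ‖(2 : L)‖ ≤ 1 := u2
  have hcont : ContinuousOn (fun s : L => ‖s ^ 2 - (1 + δ)‖) (Metric.closedBall (0 : L) 1) := by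
    fun_prop
  obtain ⟨s, hs, hmin⟩ := (isCompact_closedBall (0 : L) 1).exists_isMinOn
    ⟨0, Metric.mem_closedBall_self zero_le_one⟩ hcont
  rw [mem_closedBall_zero_iff] at hs
  have hm : ∀ z : L, ‖z‖ ≤ 1 → ‖s ^ 2 - (1 + δ)‖ ≤ ‖z ^ 2 - (1 + δ)‖ := by
    intro z hz
    exact hmin (mem_closedBall_zero_iff.2 hz)
  refine ⟨s, ?_⟩
  by_contra hne
  have hF0 : 0 < ‖s ^ 2 - (1 + δ)‖ := norm_pos_iff.2 (sub_ne_zero.2 hne)
  have h1 : ‖s ^ 2 - (1 + δ)‖ ≤ ‖δ‖ := by
    have := hm 1 (by rw [norm_one])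
    have e : (1 : L) ^ 2 - (1 + δ) = -δ := by ring
    rwa [e, norm_neg] at this
  have h3 : ‖s ^ 2 - (1 + δ)‖ < ‖(2 : L)‖ ^ 2 := by
    rw [← h4]
    exact lt_of_le_of_lt h1 hδ
  have h22 : ‖(2 : L)‖ ^ 2 ≤ 1 := pow_le_one₀ h20.le h21
  have hs1 : ‖s‖ = 1 := by
    have hδ1 : ‖δ‖ < 1 := by
      rw [h4] at hδ
      linarith
    have e : s ^ 2 = (1 + δ) + (s ^ 2 - (1 + δ)) := by ring
    have h5 : ‖s ^ 2‖ = 1 := by
      rw [e, uadd_eq]
      · exact one_add_norm hδ1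
      · rw [one_add_norm hδ1]
        linarith
    rw [norm_pow] at h5
    exact (pow_eq_one_iff_of_nonneg (norm_nonneg _) (by norm_num)).1 h5
  have hs0 : s ≠ 0 := by
    intro h
    rw [h, norm_zero] at hs1
    norm_num at hs1
  set F : L := s ^ 2 - (1 + δ) with hF
  have hq : ‖F / (2 * s)‖ ≤ 1 := by
    rw [norm_div, norm_mul, hs1, mul_one, div_le_one h20]
    nlinarith
  have h6 := hm (s - F / (2 * s)) (usub hs hq)
  have e : (s - F / (2 * s)) ^ 2 - (1 + δ) = (F / (2 * s)) ^ 2 := by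
    have e1 : (1 + δ) = s ^ 2 - F := by rw [hF]; ring
    rw [e1]
    field_simp
    ring
  rw [e, norm_pow, norm_div, norm_mul, hs1, mul_one, div_pow, le_div_iff₀ (by positivity)] at h6
  nlinarith

/-- one step of the Newton iteration -/
lemma step (hW : SI W) (hD : 4 * W.a₄ ^ 3 + 27 * W.a₆ ^ 2 ≠ 0) (h2 : (2 : L) ≠ 0) {N : ℕ}
    (hN : (N : L) ≠ 0) : ∃ R : ℝ, 1 < R ∧ ∀ ρ, R ≤ ρ → ∀ T : W.toAffine.Point, Big ρ T →
      ∃ P, Big (2 * ρ) (T - N • P) := by
  set ν : ℝ := ‖(N : L)‖ with hν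
  have hν0 : 0 < ν := norm_pos_iff.2 hN
  have hν1 : ν ≤ 1 := unat N
  have h4 : (4 : L) ≠ 0 := by
    have : (4 : L) = 2 * 2 := by norm_num
    rw [this]
    exact mul_ne_zero h2 h2
  have h40 : 0 < ‖(4 : L)‖ := norm_pos_iff.2 h4
  have h41 : ‖(4 : L)‖ ≤ 1 := u4
  refine ⟨2 / (ν ^ 6 * ‖(4 : L)‖), ?_, ?_⟩
  · rw [lt_div_iff₀ (by positivity)]
    have h6 : ν ^ 6 ≤ 1 := pow_le_one₀ hν0.le hν1
    nlinarith [mul_le_one₀ h6 h40.le h41]
  intro ρ hρ T hT
  have hν6 : 0 < ν ^ 6 := by positivity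
  have hν61 : ν ^ 6 ≤ 1 := pow_le_one₀ hν0.le hν1
  have hρ1 : 2 ≤ ρ * (ν ^ 6 * ‖(4 : L)‖) := by
    rwa [div_le_iff₀ (by positivity)] at hρ
  have hpr : ν ^ 6 * ‖(4 : L)‖ ≤ 1 := mul_le_one₀ hν61 h40.le h41
  have hρ0 : 0 < ρ := by
    by_contra hc
    rw [not_lt] at hc
    have : 0 < ν ^ 6 * ‖(4 : L)‖ := by positivity
    nlinarith
  have hρ2 : 2 ≤ ρ := by nlinarith
  match T with
  | .zero =>
    refine ⟨0, ?_⟩
    rw [smul_zero, sub_zero]
    exact big_zero _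
  | .some X Y n =>
    have hX := big_some.mp hT
    have hX1 : 1 < ‖X‖ := by linarith
    have hX00 : 0 < ‖X‖ := by linarith
    have hX0 : X ≠ 0 := norm_pos_iff.1 hX00
    have hYp := hW.norm_y_pos n hX1
    have hY0 : Y ≠ 0 := norm_pos_iff.1 hYp
    have hY2 := hW.norm_y_eq n hX1
    have he := hW.toShort.eqn n
    set δ : L := ((W.a₄ * ((N : L) ^ 2 * X) + W.a₆) - (N : L) ^ 6 * (W.a₄ * X + W.a₆)) /
      ((N : L) ^ 6 * Y ^ 2) with hδ
    have hbig : 2 / (ν ^ 6 * ‖(4 : L)‖) ≤ ‖X‖ := hρ.trans hX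
    have hbig' : 2 ≤ ‖X‖ * (ν ^ 6 * ‖(4 : L)‖) := by
      rwa [div_le_iff₀ (by positivity)] at hbig
    have hδn : ‖δ‖ < ‖(4 : L)‖ := by
      rw [hδ, norm_div, norm_mul, norm_pow, norm_pow, hY2, ← hν]
      rw [div_lt_iff₀ (by positivity)]
      have hnum : ‖(W.a₄ * ((N : L) ^ 2 * X) + W.a₆) - (N : L) ^ 6 * (W.a₄ * X + W.a₆)‖ ≤ ‖X‖ := by
        have hNk : ∀ k : ℕ, ‖(N : L) ^ k‖ ≤ 1 := by
          intro k
          rw [norm_pow]
          exact pow_le_one₀ (norm_nonneg _) hν1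
        refine usub (uadd (umul hW.ha (umul (hNk 2) le_rfl)) (hW.hb.trans hX1.le)) ?_
        exact umul (hNk 6) (uadd (umul hW.ha le_rfl) (hW.hb.trans hX1.le))
      refine lt_of_le_of_lt hnum ?_
      have e : ‖(4 : L)‖ * (ν ^ 6 * ‖X‖ ^ 3) = (‖X‖ * (ν ^ 6 * ‖(4 : L)‖)) * (‖X‖ * ‖X‖) := by ring
      rw [e]
      nlinarith [mul_pos hX00 hX00]
    obtain ⟨s, hs⟩ := exists_sqrt h2 hδn
    have heq : ((N : L) ^ 3 * Y * s) ^ 2 = ((N : L) ^ 2 * X) ^ 3 + W.a₄ * ((N : L) ^ 2 * X) + W.a₆ := by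
      have e1 : ((N : L) ^ 3 * Y * s) ^ 2 = (N : L) ^ 6 * Y ^ 2 * s ^ 2 := by ring
      have e2 : (N : L) ^ 6 * Y ^ 2 * δ = (W.a₄ * ((N : L) ^ 2 * X) + W.a₆) -
          (N : L) ^ 6 * (W.a₄ * X + W.a₆) := by
        rw [hδ]
        field_simp
      rw [e1, hs, mul_add, mul_one, e2]
      linear_combination (N : L) ^ 6 * he
    set P1 : W.toAffine.Point := Affine.Point.some ((N : L) ^ 2 * X) ((N : L) ^ 3 * Y * s)
      (Pool.Agent.R425.D.nonsing hW hD h2 heq) with hP1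
    -- sizes
    have hx1 : ‖(N : L) ^ 2 * X‖ = ν ^ 2 * ‖X‖ := by rw [norm_mul, norm_pow]
    have hν4 : ν ^ 4 ≤ 1 := pow_le_one₀ hν0.le hν1
    have hν2 : ν ^ 2 ≤ 1 := pow_le_one₀ hν0.le hν1
    have hν62 : ν ^ 6 ≤ ν ^ 4 := by
      have e : ν ^ 6 = ν ^ 4 * ν ^ 2 := by ring
      rw [e]
      have : 0 < ν ^ 4 := by positivity
      nlinarith
    have hν42 : ν ^ 4 ≤ ν ^ 2 := by
      have e : ν ^ 4 = ν ^ 2 * ν ^ 2 := by ring
      rw [e]
      have : 0 < ν ^ 2 := by positivity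
      nlinarith
    have hX6 : 2 ≤ ‖X‖ * ν ^ 4 := by
      have a1 : ν ^ 6 * ‖(4 : L)‖ ≤ ν ^ 6 := by nlinarith
      have a2 : ν ^ 6 * ‖(4 : L)‖ ≤ ν ^ 4 := a1.trans hν62
      nlinarith
    have hX2 : 2 ≤ ν ^ 2 * ‖X‖ := by nlinarith
    have hB1 : Big 2 P1 := by
      rw [hP1, big_some, hx1]
      exact hX2
    have hB0 : Big 2 (Affine.Point.some X Y n : W.toAffine.Point) := by
      rw [big_some]
      linarith
    have hB2 : Big 2 (N • P1) := hW.big_nsmul h2 (by norm_num) hB1 N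
    have huP : uu P1 = ((N : L) ^ 2 * X)⁻¹ := rfl
    have huPn : ‖uu P1‖ = (ν ^ 2 * ‖X‖)⁻¹ := by rw [huP, norm_inv, hx1]
    have hest := (main_est hW h2 (by norm_num : (1 : ℝ) < 2) hB1 N).1
    have e3 : (N : L) ^ 2 * uu P1 = uu (Affine.Point.some X Y n : W.toAffine.Point) := by
      rw [huP, uu_some]
      field_simp
    rw [e3, huPn] at hest
    obtain ⟨-, hr⟩ := rel hW h2 (by norm_num : (1 : ℝ) < 2) hB0 hB2
    have hu1 : ∀ {S : W.toAffine.Point}, Big 2 S → ‖uu S‖ < 1 := by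
      intro S hS
      refine (uu_le (by norm_num) hS).trans_lt ?_
      norm_num
    have hd := Dl_norm hW (hu1 hB0) (hu1 hB2)
    have hprod : ‖uu (Affine.Point.some X Y n + N • P1)‖ * ‖uu (Affine.Point.some X Y n - N • P1)‖ ≤
        (((ν ^ 2 * ‖X‖)⁻¹) ^ 2) ^ 2 := by
      have := congrArg norm hr
      rw [norm_mul, hd, one_mul, norm_mul, norm_pow, norm_sub_rev] at this
      rw [this]
      exact pow_le_pow_left₀ (norm_nonneg _) hest 2
    have hfin : ((ν ^ 2 * ‖X‖)⁻¹) ^ 2 ≤ (2 * ρ)⁻¹ := by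
      rw [inv_pow]
      refine inv_anti₀ (by linarith) ?_
      have e : (ν ^ 2 * ‖X‖) ^ 2 = ‖X‖ * (‖X‖ * ν ^ 4) := by ring
      rw [e]
      nlinarith
    have hA : 0 ≤ ((ν ^ 2 * ‖X‖)⁻¹) ^ 2 := by positivity
    generalize ((ν ^ 2 * ‖X‖)⁻¹) ^ 2 = A at hprod hfin hA
    by_cases hc : ‖uu (Affine.Point.some X Y n - N • P1)‖ ≤ A
    · exact ⟨P1, big_of_uu (by norm_num : (1 : ℝ) < 2) (by linarith)
        (hW.big_sub h2 (by norm_num) hB0 hB2) (hc.trans hfin)⟩
    · rw [not_le] at hc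
      refine ⟨-P1, ?_⟩
      rw [smul_neg, sub_neg_eq_add]
      refine big_of_uu (by norm_num : (1 : ℝ) < 2) (by linarith)
        (hW.big_add h2 (by norm_num) hB0 hB2) (le_trans ?_ hfin)
      by_contra hc2
      rw [not_le] at hc2
      nlinarith

/-- points near the origin are divisible -/
theorem divisible (hW : SI W) (hD : 4 * W.a₄ ^ 3 + 27 * W.a₆ ^ 2 ≠ 0) (h2 : (2 : L) ≠ 0) {N : ℕ}
    (hN : (N : L) ≠ 0) : ∃ R : ℝ, 1 < R ∧ ∀ T : W.toAffine.Point, Big R T → ∃ P, T = N • P := by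
  obtain ⟨R, hR, hstep⟩ := step hW hD h2 hN
  refine ⟨R, hR, fun T hT => ?_⟩
  have hex : ∀ k : ℕ, ∃ P, Big (2 ^ k * R) (T - N • P) := by
    intro k
    induction k with
    | zero =>
      refine ⟨0, ?_⟩
      rw [smul_zero, sub_zero, pow_zero, one_mul]
      exact hT
    | succ k ih =>
      obtain ⟨P, hP⟩ := ih
      have h1 : (1 : ℝ) ≤ 2 ^ k := one_le_pow₀ (by norm_num)
      obtain ⟨Q, hQ⟩ := hstep (2 ^ k * R) (by nlinarith) _ hP
      refine ⟨P + Q, ?_⟩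
      rw [smul_add, ← sub_sub]
      have e : (2 : ℝ) ^ (k + 1) * R = 2 * (2 ^ k * R) := by ring
      rw [e]
      exact hQ
  choose S hS using hex
  obtain ⟨P, hP⟩ := Pool.Agent.R425.D.lim_point hW hD h2 (hyperfilter ℕ) S
  refine ⟨P, ?_⟩
  rw [← sub_eq_zero]
  refine Pool.Agent.R425.D.zero_of_big fun R' hR' => ?_
  obtain ⟨d, hd0, -, hd⟩ := hW.exists_near h2 hD hR'
  have h1 : ∀ᶠ k in (hyperfilter ℕ : Filter ℕ), ∀ j, ‖nc (S k) j - nc P j‖ < d := by
    rw [eventually_all]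
    intro j
    have := (hP j).sub (tendsto_const_nhds (x := nc P j))
    rw [sub_self] at this
    have h3 := this.norm
    rw [norm_zero] at h3
    exact h3.eventually_lt_const hd0
  obtain ⟨r, hr⟩ := pow_unbounded_of_one_lt R' (by norm_num : (1 : ℝ) < 2)
  have hge : ∀ᶠ k in (hyperfilter ℕ : Filter ℕ), r ≤ k := by
    have hle : (hyperfilter ℕ : Filter ℕ) ≤ cofinite := hyperfilter_le_cofinite
    rw [Nat.cofinite_eq_atTop] at hle
    exact hle (eventually_ge_atTop r)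
  obtain ⟨k, hk1, hk2⟩ := (h1.and hge).exists
  have h3 : Big R' (N • (S k - P)) := hW.big_nsmul h2 hR' (hd _ _ hk1) N
  have h4 : Big R' (T - N • S k) := by
    refine big_mono ?_ (hS k)
    have h6 : (2 : ℝ) ^ r ≤ 2 ^ k := pow_le_pow_right₀ (by norm_num) hk2
    nlinarith
  have e : T - N • P = (T - N • S k) + N • (S k - P) := by
    rw [smul_sub]
    abel
  rw [e]
  exact hW.big_add h2 hR' h4 h3

/-- the weak Mordell-Weil theorem -/
theorem finite_classes' (hW : SI W) (hD : 4 * W.a₄ ^ 3 + 27 * W.a₆ ^ 2 ≠ 0) (h2 : (2 : L) ≠ 0) {N : ℕ}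
    (hN : (N : L) ≠ 0) : ∃ (n : ℕ) (S : Fin n → W.toAffine.Point),
    ∀ P : W.toAffine.Point, ∃ i R, P = S i + N • R := by
  obtain ⟨R, hR, hdiv⟩ := divisible hW hD h2 hN
  have hfin := Pool.Agent.R425.D.finite_quot hW hD h2 R hR
  obtain ⟨n, ⟨e⟩⟩ := Finite.exists_equiv_fin (W.toAffine.Point ⧸ Pool.Agent.R425.D.nb hW h2 R hR)
  refine ⟨n, fun i => Quotient.out (e.symm i), fun P => ?_⟩
  refine ⟨e (QuotientAddGroup.mk P), ?_⟩
  have h1 : (QuotientAddGroup.mk (Quotient.out (e.symm (e (QuotientAddGroup.mk P)))) :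
      W.toAffine.Point ⧸ Pool.Agent.R425.D.nb hW h2 R hR) = QuotientAddGroup.mk P := by
    rw [e.symm_apply_apply]
    exact Quotient.out_eq _
  rw [QuotientAddGroup.eq] at h1
  obtain ⟨Q, hQ⟩ := hdiv _ h1
  refine ⟨Q, ?_⟩
  rw [← hQ]
  abel

end

/-- the weak Mordell-Weil theorem over the completions of a number field -/
theorem t_FNQ : S_FNQ := by
  intro F _ _ w a b hab N hN
  have hSI : ShortInt (sw (a : F) (b : F)) :=
    { h1 := rfl
      h2 := rfl
      h3 := rfl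
      ia := by
        have : IsIntegral ℤ (algebraMap ℤ F a) := isIntegral_algebraMap
        show IsIntegral ℤ (a : F)
        simpa using this
      ib := by
        have : IsIntegral ℤ (algebraMap ℤ F b) := isIntegral_algebraMap
        show IsIntegral ℤ (b : F)
        simpa using this
      disc := by
        show 4 * (a : F) ^ 3 + 27 * (b : F) ^ 2 ≠ 0
        have : ((4 * a ^ 3 + 27 * b ^ 2 : ℤ) : F) ≠ 0 := Int.cast_ne_zero.2 hab
        push_cast at this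
        exact this }
  have := Pool.Agent.Y791.BS.proper w
  have hNL : ((N : ℕ) : w.adicCompletion F) ≠ 0 := by
    have hN0 : (N : F) ≠ 0 := Nat.cast_ne_zero.2 (by omega)
    have := char_ne w hN0
    rwa [map_natCast] at this
  exact finite_classes' (hSI.si w) (hSI.disc_loc w) (two_ne w) hNL

end Pool.Agent.N890.FG.FNQ
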