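import Pool.Agent.N890.FG.Stm

/-!
# FG/ISO (helper664 for helper890): isomorphic fields
-/

set_option autoImplicit false

namespace Pool.Agent.N890.FG.ISO

open NumberField WeierstrassCurve IsDedekindDomain Pool.Agent.TH942 Pool.Agent.TH954 Filter
open Pool.Agent.N890.FG

section

variable {F k k' : Type} [Field F] [Field k] [Field k'] [Algebra F k] [Algebra F k']

/-- the extension to the algebraic closures -/
noncomputable def th0 (φ : k' ≃ₐ[F] k) : AlgebraicClosure k' ≃+* AlgebraicClosure k :=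
  IsAlgClosure.equivOfEquiv (AlgebraicClosure k') (AlgebraicClosure k) φ.toRingEquiv

theorem th0_map (φ : k' ≃ₐ[F] k) (x : k') :
    th0 φ (algebraMap k' (AlgebraicClosure k') x) = algebraMap k (AlgebraicClosure k) (φ x) :=
  IsAlgClosure.equivOfEquiv_algebraMap _ _ _ x

/-- the extension to the algebraic closures -/
noncomputable def th (φ : k' ≃ₐ[F] k) : AlgebraicClosure k' ≃ₐ[F] AlgebraicClosure k :=
  AlgEquiv.ofRingEquiv (f := th0 φ) (fun c => by
    rw [IsScalarTower.algebraMap_apply F k' (AlgebraicClosure k'), th0_map, φ.commutes,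
      ← IsScalarTower.algebraMap_apply F k (AlgebraicClosure k)])

theorem th_map (φ : k' ≃ₐ[F] k) (x : k') :
    th φ (algebraMap k' (AlgebraicClosure k') x) = algebraMap k (AlgebraicClosure k) (φ x) :=
  th0_map φ x

theorem th_symm_map (φ : k' ≃ₐ[F] k) (x : k) :
    (th φ).symm (algebraMap k (AlgebraicClosure k) x) =
      algebraMap k' (AlgebraicClosure k') (φ.symm x) := by
  rw [AlgEquiv.symm_apply_eq, th_map, AlgEquiv.apply_symm_apply]

/-- conjugation -/
noncomputable def cj (φ : k' ≃ₐ[F] k) (σ : AlgebraicClosure k ≃ₐ[k] AlgebraicClosure k) :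
    AlgebraicClosure k' ≃ₐ[k'] AlgebraicClosure k' :=
  AlgEquiv.ofRingEquiv
    (f := ((th φ).toRingEquiv.trans σ.toRingEquiv).trans (th φ).symm.toRingEquiv) (fun x => by
      show (th φ).symm (σ (th φ (algebraMap k' (AlgebraicClosure k') x))) = _
      rw [th_map, σ.commutes, ← th_map, AlgEquiv.symm_apply_apply])

theorem cj_apply (φ : k' ≃ₐ[F] k) (σ : AlgebraicClosure k ≃ₐ[k] AlgebraicClosure k)
    (x : AlgebraicClosure k') : cj φ σ x = (th φ).symm (σ (th φ x)) := rfl

theorem cj_mul (φ : k' ≃ₐ[F] k) (σ τ : AlgebraicClosure k ≃ₐ[k] AlgebraicClosure k) :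
    cj φ (σ * τ) = cj φ σ * cj φ τ := by
  ext x
  rw [AlgEquiv.mul_apply, cj_apply, cj_apply, cj_apply, AlgEquiv.apply_symm_apply,
    AlgEquiv.mul_apply]

open scoped Classical in
theorem pm_pm (E : WeierstrassCurve F) {L₁ L₂ L₃ : Type} [Field L₁] [Algebra F L₁] [Field L₂]
    [Algebra F L₂] [Field L₃] [Algebra F L₃] (f : L₁ →ₐ[F] L₂) (g : L₂ →ₐ[F] L₃)
    (P : (E.baseChange L₁).toAffine.Point) : pm E g (pm E f P) = pm E (g.comp f) P := by
  unfold pm
  exact Affine.Point.map_map f g P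

open scoped Classical in
theorem pm_act (E : WeierstrassCurve F) (φ : k' ≃ₐ[F] k)
    (σ : AlgebraicClosure k ≃ₐ[k] AlgebraicClosure k) (Q : AlgPt E k') :
    pm E (th φ : AlgebraicClosure k' →ₐ[F] AlgebraicClosure k) (act E (cj φ σ) Q) =
      act E σ (pm E (th φ : AlgebraicClosure k' →ₐ[F] AlgebraicClosure k) Q) := by
  unfold act
  rw [pm_pm, pm_pm]
  refine congrArg (fun f => pm E f Q) (AlgHom.ext fun x => ?_)
  show th φ (cj φ σ x) = σ (th φ x)
  rw [cj_apply, AlgEquiv.apply_symm_apply]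

open scoped Classical in
theorem coc (E : WeierstrassCurve F) (φ : k' ≃ₐ[F] k)
    (ξ : (AlgebraicClosure k' ≃ₐ[k'] AlgebraicClosure k') → AlgPt E k') (h : IsCoc E k' ξ) :
    IsCoc E k (fun σ => pm E (th φ : AlgebraicClosure k' →ₐ[F] AlgebraicClosure k)
      (ξ (cj φ σ))) := by
  refine ⟨fun σ τ => ?_, ?_⟩
  · show pm E _ (ξ (cj φ (σ * τ))) = _
    rw [cj_mul, h.1, map_add, pm_act]
  · obtain ⟨M, hM, hM2⟩ := h.2
    let b := Module.finBasis k' M
    let S : Set (AlgebraicClosure k) := Set.range fun i => th φ (b i : AlgebraicClosure k')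
    have hSf : Finite S := (Set.finite_range _).to_subtype
    refine ⟨IntermediateField.adjoin k S,
      IntermediateField.finiteDimensional_adjoin fun x _ => Algebra.IsIntegral.isIntegral x,
      fun σ τ hστ => ?_⟩
    have hl : ((cj φ σ).toLinearMap ∘ₗ M.val.toLinearMap) =
        ((cj φ τ).toLinearMap ∘ₗ M.val.toLinearMap) := by
      refine b.ext fun i => ?_
      show cj φ σ (b i : AlgebraicClosure k') = cj φ τ (b i : AlgebraicClosure k')
      rw [cj_apply, cj_apply, hστ _ (IntermediateField.subset_adjoin k S ⟨i, rfl⟩)]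
    show pm E _ (ξ (cj φ σ)) = pm E _ (ξ (cj φ τ))
    have key : ∀ x ∈ M, cj φ σ x = cj φ τ x := fun x hx => LinearMap.congr_fun hl ⟨x, hx⟩
    rw [hM2 _ _ key]

end

/-- ISO -/
theorem t_ISO : S_ISO := by
  classical
  intro F k k' _ _ _ _ _ φ r a b N W L _ _ X ⟨ξ, hc, hN, hloc⟩
  refine ⟨fun i σ => pm (sw (a i : F) (b i : F))
    (th φ : AlgebraicClosure k' →ₐ[F] AlgebraicClosure k) (ξ i (cj φ σ)), fun i => ?_,
    fun i σ => ?_, fun w ψ => ?_⟩
  · exact coc _ φ (ξ i) (hc i)
  · show N • pm (sw (a i : F) (b i : F))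
      (th φ : AlgebraicClosure k' →ₐ[F] AlgebraicClosure k) (ξ i (cj φ σ)) = 0
    rw [← map_nsmul, hN i, map_zero]
  · obtain ⟨ι, P, Q, h1, h2, h3, h4⟩ := hloc w (ψ.comp (φ : k' →ₐ[F] k))
    refine ⟨ι.comp ((th φ).symm : AlgebraicClosure k →ₐ[F] AlgebraicClosure k'), P, Q,
      fun x => ?_, h2, h3, fun i σ τ hστ => ?_⟩
    · show ι ((th φ).symm (algebraMap k _ x)) = _
      rw [th_symm_map, h1]
      show algebraMap (L w) _ (ψ (φ (φ.symm x))) = _
      rw [AlgEquiv.apply_symm_apply]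
    · have h5 := h4 i σ (cj φ τ) (fun z => by
        have h6 := hστ (th φ z)
        have h7 : ι ((th φ).symm (τ (th φ z))) = σ (ι ((th φ).symm (th φ z))) := h6
        rw [AlgEquiv.symm_apply_apply] at h7
        exact h7)
      rw [← h5]
      show pm (sw (a i : F) (b i : F)) (ι.comp _) (pm (sw (a i : F) (b i : F)) _ (ξ i (cj φ τ))) = _
      rw [pm_pm]
      refine congrArg (fun f => pm (sw (a i : F) (b i : F)) f (ξ i (cj φ τ)))
        (AlgHom.ext fun x => ?_)
      show ι ((th φ).symm (th φ x)) = ι x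
      rw [AlgEquiv.symm_apply_apply]

end Pool.Agent.N890.FG.ISO
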