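import Pool.Agent.N890.FG.Stm0

/-!
# Project FG: limits of embeddings are specialisations

Written by helper432 for project FG of helper890.
-/

set_option autoImplicit false

namespace Pool.Agent.N890.FG.LIM

open Pool.Agent.N890.FG Filter Polynomial
open scoped Topology

section

variable {k Ω M : Type} [Field k] [Field Ω] [Field M] (v : AbsoluteValue M ℝ)
  (ι₀ : k →+* M) (ι : ℕ → Ω →+* M) (l : Filter ℕ)

/-- the element `c` is the limit of the elements `ι j x` -/
def Lim (x : Ω) (c : k) : Prop := Tendsto (fun j => v (ι j x - ι₀ c)) l (𝓝 0)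

variable {v ι₀ ι l}

theorem Lim.add {x y : Ω} {c d : k} (hx : Lim v ι₀ ι l x c) (hy : Lim v ι₀ ι l y d) :
    Lim v ι₀ ι l (x + y) (c + d) := by
  have h := Tendsto.add hx hy
  rw [add_zero] at h
  refine squeeze_zero (fun j => v.nonneg _) (fun j => ?_) h
  have : ι j (x + y) - ι₀ (c + d) = (ι j x - ι₀ c) + (ι j y - ι₀ d) := by
    rw [map_add, map_add]; ring
  rw [this]
  exact v.add_le _ _

theorem Lim.mul {x y : Ω} {c d : k} (hx : Lim v ι₀ ι l x c) (hy : Lim v ι₀ ι l y d) :
    Lim v ι₀ ι l (x * y) (c * d) := by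
  have h1 : Tendsto (fun j => v (ι j x - ι₀ c) * v (ι j y - ι₀ d) +
      v (ι₀ c) * v (ι j y - ι₀ d) + v (ι₀ d) * v (ι j x - ι₀ c)) l (𝓝 0) := by
    have := ((Tendsto.mul hx hy).add (Tendsto.const_mul (v (ι₀ c)) hy)).add
      (Tendsto.const_mul (v (ι₀ d)) hx)
    simpa using this
  refine squeeze_zero (fun j => v.nonneg _) (fun j => ?_) h1
  have : ι j (x * y) - ι₀ (c * d) = (ι j x - ι₀ c) * (ι j y - ι₀ d) + ι₀ c * (ι j y - ι₀ d) +
      ι₀ d * (ι j x - ι₀ c) := by
    rw [map_mul, map_mul]; ring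
  rw [this, ← v.map_mul, ← v.map_mul, ← v.map_mul]
  exact (v.add_le _ _).trans (add_le_add (v.add_le _ _) le_rfl)

theorem Lim.unique [l.NeBot] {x : Ω} {c d : k} (hx : Lim v ι₀ ι l x c) (hy : Lim v ι₀ ι l x d) :
    c = d := by
  have h := Tendsto.add hx hy
  rw [add_zero] at h
  have h2 : v (ι₀ (c - d)) ≤ 0 := by
    refine ge_of_tendsto' h fun j => ?_
    have : ι₀ (c - d) = (ι j x - ι₀ d) - (ι j x - ι₀ c) := by
      rw [map_sub]; ring
    rw [this, add_comm]
    exact v.sub_le_add _ _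
  have h3 : v (ι₀ (c - d)) = 0 := le_antisymm h2 (v.nonneg _)
  rw [v.eq_zero, map_eq_zero, sub_eq_zero] at h3
  exact h3

theorem Lim.of_eq {x : Ω} {c : k} (h : ∀ j, ι j x = ι₀ c) : Lim v ι₀ ι l x c := by
  have : (fun j => v (ι j x - ι₀ c)) = fun _ => 0 := by
    funext j
    rw [h j, sub_self, v.map_zero]
  unfold Lim
  rw [this]
  exact tendsto_const_nhds

/-- one of the factors tends to zero -/
theorem exists_factor (𝒰 : Ultrafilter ℕ) (x : Ω) (s : Multiset k)
    (h : Tendsto (fun j => v ((s.map fun γ => ι j x - ι₀ γ).prod)) 𝒰 (𝓝 0)) :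
    ∃ γ, Lim v ι₀ ι 𝒰 x γ := by
  induction s using Multiset.induction_on with
  | empty =>
    exfalso
    simp only [Multiset.map_zero, Multiset.prod_zero, v.map_one] at h
    exact one_ne_zero (tendsto_nhds_unique tendsto_const_nhds h)
  | cons a s ih =>
    by_cases ha : Lim v ι₀ ι 𝒰 x a
    · exact ⟨a, ha⟩
    · refine ih ?_
      have : ∃ ε : ℝ, 0 < ε ∧ ∀ᶠ j in (𝒰 : Filter ℕ), ε ≤ v (ι j x - ι₀ a) := by
        by_contra hcon
        push Not at hcon
        refine ha ?_
        unfold Lim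
        rw [Metric.tendsto_nhds]
        intro ε hε
        have h1 := hcon ε hε
        refine h1.mono fun j hj => ?_
        rw [Real.dist_eq, sub_zero, abs_of_nonneg (v.nonneg _)]
        exact hj
      obtain ⟨ε, hε, hev⟩ := this
      have h2 : Tendsto (fun j => ε⁻¹ * v (((a ::ₘ s).map fun γ => ι j x - ι₀ γ).prod)) 𝒰 (𝓝 0) := by
        have := Tendsto.const_mul ε⁻¹ h
        rwa [mul_zero] at this
      refine squeeze_zero' (Eventually.of_forall fun j => v.nonneg _) (hev.mono fun j hj => ?_) h2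
      rw [Multiset.map_cons, Multiset.prod_cons, v.map_mul, ← mul_assoc]
      refine le_mul_of_one_le_left (v.nonneg _) ?_
      rw [← div_eq_inv_mul, one_le_div hε]
      exact hj

/-- roots of monic polynomials are bounded -/
theorem root_bound (n : ℕ) (b : ℕ → M) (y : M) (hn : 0 < n)
    (h : y ^ n + ∑ i ∈ Finset.range n, b i * y ^ i = 0) :
    v y ≤ 1 + ∑ i ∈ Finset.range n, v (b i) := by
  have hS : 0 ≤ ∑ i ∈ Finset.range n, v (b i) := Finset.sum_nonneg fun i _ => v.nonneg _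
  rcases le_or_gt (v y) 1 with hy | hy
  · linarith
  · have hy0 : 0 < v y := by linarith
    have h1 : y ^ n = -∑ i ∈ Finset.range n, b i * y ^ i := eq_neg_of_add_eq_zero_left h
    have h2 : v y ^ n ≤ (∑ i ∈ Finset.range n, v (b i)) * v y ^ (n - 1) := by
      rw [← v.map_pow, h1, v.map_neg, Finset.sum_mul]
      refine (v.sum_le _ _).trans (Finset.sum_le_sum fun i hi => ?_)
      rw [v.map_mul, v.map_pow]
      refine mul_le_mul_of_nonneg_left ?_ (v.nonneg _)
      refine pow_le_pow_right₀ hy.le ?_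
      have := Finset.mem_range.1 hi
      omega
    have h3 : v y ^ n = v y * v y ^ (n - 1) := by
      rw [← pow_succ']
      congr 1
      omega
    rw [h3] at h2
    have := le_of_mul_le_mul_right h2 (pow_pos hy0 _)
    linarith

/-- limits of roots exist -/
theorem exists_lim [IsAlgClosed k] (𝒰 : Ultrafilter ℕ) (x : Ω) (n : ℕ) (a : ℕ → Ω) (c : ℕ → k)
    (hac : ∀ i, Lim v ι₀ ι 𝒰 (a i) (c i))
    (h : x ^ n + ∑ i ∈ Finset.range n, a i * x ^ i = 0) :
    ∃ γ, Lim v ι₀ ι 𝒰 x γ := by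
  have hn : 0 < n := by
    rcases Nat.eq_zero_or_pos n with rfl | hn
    · simp at h
    · exact hn
  set g : k[X] := X ^ n + ∑ i ∈ Finset.range n, C (c i) * X ^ i with hg
  have hmon : g.Monic := by
    refine monic_X_pow_add ?_
    refine (degree_sum_le _ _).trans_lt ?_
    rw [Finset.sup_lt_iff (by exact WithBot.bot_lt_coe n)]
    intro i hi
    refine (degree_C_mul_X_pow_le _ _).trans_lt ?_
    exact_mod_cast Finset.mem_range.1 hi
  have hsplit : (g.roots.map fun γ => X - C γ).prod = g :=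
    (IsAlgClosed.splits g).eq_prod_roots_of_monic hmon |>.symm
  -- the values
  have hval : ∀ j, (g.roots.map fun γ => ι j x - ι₀ γ).prod =
      ∑ i ∈ Finset.range n, (ι₀ (c i) - ι j (a i)) * (ι j x) ^ i := by
    intro j
    have h1 : (g.roots.map fun γ => ι j x - ι₀ γ).prod = eval₂ ι₀ (ι j x) g := by
      conv_rhs => rw [← hsplit]
      rw [← coe_eval₂RingHom, map_multiset_prod, Multiset.map_map]
      congr 1
      refine Multiset.map_congr rfl fun γ _ => ?_
      simp
    have h2 : ι j x ^ n + ∑ i ∈ Finset.range n, ι j (a i) * (ι j x) ^ i = 0 := by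
      have := congrArg (ι j) h
      simpa [map_sum] using this
    rw [h1, hg, eval₂_add, eval₂_X_pow, eval₂_finsetSum]
    have h3 : ∀ i, eval₂ ι₀ (ι j x) (C (c i) * X ^ i) = ι₀ (c i) * ι j x ^ i := fun i => by
      rw [eval₂_mul, eval₂_C, eval₂_X_pow]
    simp only [h3, sub_mul, Finset.sum_sub_distrib]
    linear_combination h2
  -- boundedness
  have hbd : ∀ᶠ j in (𝒰 : Filter ℕ), v (ι j x) ≤
      1 + ∑ i ∈ Finset.range n, (v (ι₀ (c i)) + 1) := by
    have h1 : ∀ᶠ j in (𝒰 : Filter ℕ), ∀ i ∈ Finset.range n, v (ι j (a i) - ι₀ (c i)) < 1 := by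
      rw [Filter.eventually_all_finset]
      intro i _
      exact (hac i).eventually_lt_const one_pos
    refine h1.mono fun j hj => ?_
    have h2 : ι j x ^ n + ∑ i ∈ Finset.range n, ι j (a i) * (ι j x) ^ i = 0 := by
      have := congrArg (ι j) h
      simpa [map_sum] using this
    refine (root_bound n (fun i => ι j (a i)) (ι j x) hn h2).trans ?_
    refine add_le_add le_rfl (Finset.sum_le_sum fun i hi => ?_)
    have h3 : ι j (a i) = ι₀ (c i) + (ι j (a i) - ι₀ (c i)) := by ring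
    calc v (ι j (a i)) = v (ι₀ (c i) + (ι j (a i) - ι₀ (c i))) := by rw [← h3]
      _ ≤ v (ι₀ (c i)) + v (ι j (a i) - ι₀ (c i)) := v.add_le _ _
      _ ≤ v (ι₀ (c i)) + 1 := add_le_add le_rfl (hj i hi).le
  set D : ℝ := 1 + ∑ i ∈ Finset.range n, (v (ι₀ (c i)) + 1) with hD
  have htend : Tendsto (fun j => ∑ i ∈ Finset.range n, v (ι j (a i) - ι₀ (c i)) * D ^ i) 𝒰
      (𝓝 0) := by
    have : Tendsto (fun j => ∑ i ∈ Finset.range n, v (ι j (a i) - ι₀ (c i)) * D ^ i) 𝒰
        (𝓝 (∑ i ∈ Finset.range n, 0 * D ^ i)) :=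
      tendsto_finsetSum _ fun i _ => Tendsto.mul_const _ (hac i)
    simpa using this
  refine exists_factor 𝒰 x g.roots ?_
  refine squeeze_zero' (Eventually.of_forall fun j => v.nonneg _) (hbd.mono fun j hj => ?_) htend
  rw [hval j]
  refine (v.sum_le _ _).trans (Finset.sum_le_sum fun i _ => ?_)
  rw [v.map_mul, v.map_pow, v.map_sub (ι₀ (c i)) (ι j (a i))]
  refine mul_le_mul_of_nonneg_left ?_ (v.nonneg _)
  exact pow_le_pow_left₀ (v.nonneg _) hj i

end

theorem t_LIM : S_LIM := by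
  intro k₁ k' _ _ _ _ T hRat e t₀ L _ v ι₀ ι hι hT 𝒰 h𝒰
  -- coefficients
  have hconst : ∀ y : AlgebraicClosure k₁, Lim v ι₀ ι 𝒰 (e y) y := fun y => Lim.of_eq fun j => hι j y
  have hT' : Lim v ι₀ ι 𝒰 (algebraMap k' (AlgebraicClosure k') T)
      (algebraMap k₁ (AlgebraicClosure k₁) t₀) := hT.mono_left h𝒰
  have hcoef : ∀ a ∈ Algebra.adjoin k₁ {T}, ∃ c : AlgebraicClosure k₁,
      Lim v ι₀ ι 𝒰 (algebraMap k' (AlgebraicClosure k') a) c := by
    intro a ha
    induction ha using Algebra.adjoin_induction with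
    | mem x hx =>
      rw [Set.mem_singleton_iff] at hx
      rw [hx]
      exact ⟨_, hT'⟩
    | algebraMap r =>
      refine ⟨algebraMap k₁ (AlgebraicClosure k₁) r, ?_⟩
      rw [← IsScalarTower.algebraMap_apply k₁ k' (AlgebraicClosure k'), ← e.commutes]
      exact hconst _
    | add x y _ _ hx hy =>
      obtain ⟨c, hc⟩ := hx
      obtain ⟨d, hd⟩ := hy
      rw [map_add]
      exact ⟨_, hc.add hd⟩
    | mul x y _ _ hx hy =>
      obtain ⟨c, hc⟩ := hx
      obtain ⟨d, hd⟩ := hy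
      rw [map_mul]
      exact ⟨_, hc.mul hd⟩
  have hex : ∀ x : B k₁ T, ∃ c : AlgebraicClosure k₁, Lim v ι₀ ι 𝒰 (x : AlgebraicClosure k') c := by
    rintro ⟨x, hx⟩
    have hx' : IsIntegral (Algebra.adjoin k₁ {T}) x := hx
    obtain ⟨f, hf, hfx⟩ := hx'
    have hco : ∀ i, ∃ c : AlgebraicClosure k₁, Lim v ι₀ ι 𝒰
        (algebraMap (Algebra.adjoin k₁ {T}) (AlgebraicClosure k') (f.coeff i)) c := by
      intro i
      exact hcoef _ (f.coeff i).2
    choose c hc using hco
    refine exists_lim 𝒰 x f.natDegree _ c hc ?_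
    rw [eval₂_eq_sum_range, Finset.sum_range_succ, hf.coeff_natDegree, map_one, one_mul,
      add_comm] at hfx
    exact hfx
  choose π hπ using hex
  refine ⟨{ toFun := π
            map_one' := ?_
            map_mul' := ?_
            map_zero' := ?_
            map_add' := ?_ }, ⟨?_, ?_⟩, ?_⟩
  · refine (hπ 1).unique (Lim.of_eq fun j => ?_)
    rw [map_one]
    exact map_one _
  · intro x y
    exact (hπ (x * y)).unique ((hπ x).mul (hπ y))
  · refine (hπ 0).unique (Lim.of_eq fun j => ?_)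
    rw [map_zero]
    exact map_zero _
  · intro x y
    exact (hπ (x + y)).unique ((hπ x).add (hπ y))
  · intro y hy
    exact (hπ ⟨e y, hy⟩).unique (hconst y)
  · intro hT2
    exact (hπ ⟨_, hT2⟩).unique hT'
  · intro x hx
    exact hπ ⟨x, hx⟩

end Pool.Agent.N890.FG.LIM
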