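import Pool.Agent.N890.FG.Stm0

/-!
# LOF: an invariant absolute value on the algebraic closure of a completion of a number field
-/

set_option autoImplicit false

namespace Pool.Agent.N890.FG.LOF

open Pool.Agent.N890.FG NumberField IsDedekindDomain Filter
open scoped Topology Cardinal

theorem aux (L : Type) [NontriviallyNormedField L] [IsUltrametricDist L] [CompleteSpace L] :
    ∃ v, LF L v := by
  have hpm := spectralMulAlgNorm_def (K := L) (L := AlgebraicClosure L)
  let f := spectralMulAlgNorm L (AlgebraicClosure L)
  let v : AbsoluteValue (AlgebraicClosure L) ℝ :=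
    { toFun := f
      map_mul' := fun x y => map_mul f x y
      nonneg' := fun x => apply_nonneg f x
      eq_zero' := fun x => map_eq_zero_iff_eq_zero f
      add_le' := fun x y => map_add_le_add f x y }
  refine ⟨v, ?_, ?_⟩
  · intro σ x
    change f (σ x) = f x
    rw [hpm, hpm, ← spectralNorm_eq_of_equiv]
  · intro ε hε hc
    have e : {x : L | v (algebraMap L (AlgebraicClosure L) x) < ε} = Metric.ball 0 ε := by
      ext x
      have h1 : v (algebraMap L (AlgebraicClosure L) x) = ‖x‖ := by
        change f (algebraMap L (AlgebraicClosure L) x) = ‖x‖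
        rw [hpm]
        exact spectralNorm_extends x
      simp [h1]
    rw [e] at hc
    have h1 := continuum_le_cardinal_of_isOpen L (Metric.isOpen_ball (x := (0 : L)) (ε := ε))
      ⟨0, Metric.mem_ball_self hε⟩
    have h2 := hc.le_aleph0
    exact absurd (h1.trans h2) (not_le.2 Cardinal.aleph0_lt_continuum)

open scoped WithZero in
theorem t_LOF : S_LOF := by
  intro F _ _ w
  let i1 : NontriviallyNormedField (w.adicCompletion F) :=
    Valued.toNontriviallyNormedField (w.adicCompletion F) ℤᵐ⁰
  have i2 : @IsUltrametricDist (w.adicCompletion F) i1.toDist := inferInstance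
  have i3 : @CompleteSpace (w.adicCompletion F) i1.toUniformSpace := inferInstance
  exact aux (w.adicCompletion F)

end Pool.Agent.N890.FG.LOF
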