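import Pool.Agent.N890.FG.Stm

/-!
# FG/NST (helper664 for helper890): induction on the number of the variables
-/

set_option autoImplicit false

namespace Pool.Agent.N890.FG.NST

open NumberField WeierstrassCurve IsDedekindDomain Pool.Agent.TH942 Pool.Agent.TH954 Filter
open Pool.Agent.N890.FG

theorem countable_nf (K : Type) [Field K] [NumberField K] : Countable K :=
  (Module.finBasis ℚ K).equivFun.injective.countable

theorem countable_adj (F K : Type) [Field F] [Countable F] [Field K] [Algebra F K] (S : Set K)
    (hS : S.Finite) : Countable (IntermediateField.adjoin F S) := by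
  rw [← Cardinal.mk_le_aleph0_iff]
  refine (IntermediateField.cardinalMk_adjoin_le F S).trans ?_
  refine sup_le (sup_le (Cardinal.mk_le_aleph0_iff.2 inferInstance) ?_) le_rfl
  exact Cardinal.mk_le_aleph0_iff.2 hS.countable.to_subtype

open scoped IntermediateField.algebraAdjoinAdjoin in
theorem transc (F K : Type) [Field F] [Field K] [Algebra F K] (n : ℕ) (x : Fin (n + 1) → K)
    (hx : AlgebraicIndependent F x) :
    Transcendental (IntermediateField.adjoin F (Set.range (x ∘ Fin.castSucc))) (x (Fin.last n)) := by
  have h1 := hx.transcendental_adjoin (s := Set.range (Fin.castSucc : Fin n → Fin (n + 1)))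
    (i := Fin.last n) (by
      rintro ⟨i, hi⟩
      exact absurd hi (Fin.castSucc_lt_last i).ne)
  rw [← Set.range_comp] at h1
  intro h2
  apply h1
  exact (IsFractionRing.isAlgebraic_iff _
    (IntermediateField.adjoin F (Set.range (x ∘ Fin.castSucc))) K).2 h2

/-- NST -/
theorem t_NST : S_STEP → S_ISO → S_NST := by
  classical
  intro hstep hiso F k' _ _ _ _ n
  have hF := countable_nf F
  induction n generalizing k' with
  | zero =>
    intro x hx hadj r a b hab N hN X hξ
    have hbot : (⊥ : IntermediateField F k') = ⊤ := by
      rw [← hadj, Set.range_eq_empty, IntermediateField.adjoin_empty]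
    have e : k' ≃ₐ[F] F :=
      ((IntermediateField.topEquiv (F := F) (E := k')).symm.trans
        (IntermediateField.equivOfEq hbot.symm)).trans (IntermediateField.botEquiv F k')
    exact hiso F F k' e r a b N _ _ X hξ
  | succ n ih =>
    intro x hx hadj r a b hab N hN X hξ
    let k₁ : IntermediateField F k' := IntermediateField.adjoin F (Set.range (x ∘ Fin.castSucc))
    have hcz : CharZero k₁ := charZero_of_injective_algebraMap (algebraMap F k₁).injective
    have hco : Countable k₁ := countable_adj F k' _ (Set.finite_range _)
    have hrat : Rat k₁ k' (x (Fin.last n)) := by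
      refine ⟨transc F k' n x hx, ?_⟩
      apply IntermediateField.restrictScalars_injective F
      rw [IntermediateField.restrictScalars_top]
      show IntermediateField.restrictScalars F (IntermediateField.adjoin
        (IntermediateField.adjoin F (Set.range (x ∘ Fin.castSucc))) {x (Fin.last n)}) = ⊤
      rw [IntermediateField.adjoin_adjoin_left, ← hadj]
      congr 1
      ext y
      constructor
      · rintro (⟨i, rfl⟩ | hy)
        · exact ⟨i.castSucc, rfl⟩
        · rw [Set.mem_singleton_iff] at hy
          exact ⟨Fin.last n, hy.symm⟩
      · rintro ⟨i, rfl⟩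
        refine Fin.lastCases ?_ (fun j => ?_) i
        · exact Or.inr rfl
        · exact Or.inl ⟨j, rfl⟩
    have h2 := hstep F k₁ k' (x (Fin.last n)) hrat r a b hab N hN X hξ
    refine ih k₁ (fun i => ⟨x i.castSucc, IntermediateField.subset_adjoin F _ ⟨i, rfl⟩⟩) ?_ ?_ r a b
      hab N hN X h2
    · apply AlgebraicIndependent.of_comp k₁.val
      exact hx.comp Fin.castSucc (Fin.castSucc_injective n)
    · apply IntermediateField.lift_injective k₁
      rw [IntermediateField.lift_top, IntermediateField.lift_adjoin]
      show IntermediateField.adjoin F _ = IntermediateField.adjoin F _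
      congr 1
      rw [← Set.range_comp]
      rfl

end Pool.Agent.N890.FG.NST
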