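import Pool.Agent.N890.FG.BAS

/-!
Project FG (helper890), part SPX: existence of specialisations (helper227).
-/

set_option autoImplicit false

namespace Pool.Agent.N890.FG.SPX

open Pool.Agent.N890.FG

/-- Homomorphisms to an algebraically closed field extend to integral extensions. -/
theorem lift_int {A S k K : Type} [CommRing A] [CommRing S] [Algebra A S] [Algebra.IsIntegral A S]
    (hinj : Function.Injective (algebraMap A S)) [Field k] (ev : A →+* k)
    (hs : Function.Surjective ev) [Field K] [Algebra k K] [IsAlgClosed K] :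
    ∃ ψ : S →+* K, ∀ a, ψ (algebraMap A S a) = algebraMap k K (ev a) := by
  have hm : (RingHom.ker ev).IsMaximal := RingHom.ker_isMaximal_of_surjective ev hs
  obtain ⟨Q, hQm, hQ⟩ := Ideal.exists_ideal_over_maximal_of_isIntegral (S := S) (RingHom.ker ev)
    (by rw [(RingHom.injective_iff_ker_eq_bot _).1 hinj]; exact bot_le)
  let _ : Field (S ⧸ Q) := Ideal.Quotient.field Q
  -- the map `k → S / Q`
  have hker : ∀ a, ev a = 0 → (Ideal.Quotient.mk Q) (algebraMap A S a) = 0 := by
    intro a ha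
    rw [Ideal.Quotient.eq_zero_iff_mem]
    have : a ∈ RingHom.ker ev := ha
    rw [← hQ] at this
    exact this
  let f : k →+* S ⧸ Q := RingHom.liftOfSurjective ev hs
    ⟨(Ideal.Quotient.mk Q).comp (algebraMap A S), fun a ha => hker a ha⟩
  have hf : ∀ a, f (ev a) = (Ideal.Quotient.mk Q) (algebraMap A S a) := fun a =>
    RingHom.liftOfRightInverse_comp_apply _ _ _ _ a
  let _ : Algebra k (S ⧸ Q) := f.toAlgebra
  have hfa : ∀ a, algebraMap k (S ⧸ Q) (ev a) = (Ideal.Quotient.mk Q) (algebraMap A S a) := hf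
  have : Algebra.IsAlgebraic k (S ⧸ Q) := by
    refine ⟨fun x => ?_⟩
    obtain ⟨b, rfl⟩ := Ideal.Quotient.mk_surjective x
    obtain ⟨p, hp, hpb⟩ := Algebra.IsIntegral.isIntegral (R := A) b
    apply IsIntegral.isAlgebraic
    refine ⟨p.map ev, hp.map ev, ?_⟩
    rw [Polynomial.eval₂_map]
    have e : (algebraMap k (S ⧸ Q)).comp ev = (Ideal.Quotient.mk Q).comp (algebraMap A S) :=
      RingHom.ext hfa
    rw [e, ← Polynomial.hom_eval₂, hpb, map_zero]
  let ψ : (S ⧸ Q) →ₐ[k] K := IsAlgClosed.lift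
  refine ⟨(ψ : (S ⧸ Q) →+* K).comp (Ideal.Quotient.mk Q), fun a => ?_⟩
  rw [RingHom.comp_apply, ← hfa]
  exact ψ.commutes _

/-- Evaluation at `t₀`. -/
theorem exists_ev {k₁ k' : Type} [Field k₁] [Field k'] [Algebra k₁ k'] {T : k'}
    (hT : Transcendental k₁ T) (t₀ : k₁) :
    ∃ ev : Algebra.adjoin k₁ {T} →ₐ[k₁] k₁,
      ev ⟨T, Algebra.subset_adjoin (Set.mem_singleton T)⟩ = t₀ := by
  have hinj : Function.Injective (Polynomial.aeval (R := k₁) T) := transcendental_iff_injective.1 hT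
  have hr : Algebra.adjoin k₁ {T} = (Polynomial.aeval (R := k₁) T).range :=
    Algebra.adjoin_singleton_eq_range_aeval k₁ T
  let E : Polynomial k₁ ≃ₐ[k₁] (Polynomial.aeval (R := k₁) T).range := AlgEquiv.ofInjective _ hinj
  let ev0 : (Polynomial.aeval (R := k₁) T).range →ₐ[k₁] k₁ :=
    (Polynomial.aeval (R := k₁) t₀).comp E.symm.toAlgHom
  refine ⟨ev0.comp (Subalgebra.equivOfEq _ _ hr).toAlgHom, ?_⟩
  have h1 : E Polynomial.X = ⟨T, by rw [← hr]; exact Algebra.subset_adjoin (Set.mem_singleton T)⟩ := by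
    apply Subtype.ext
    show (Polynomial.aeval (R := k₁) T) Polynomial.X = T
    rw [Polynomial.aeval_X]
  have h2 : E.symm ⟨T, by rw [← hr]; exact Algebra.subset_adjoin (Set.mem_singleton T)⟩ =
      Polynomial.X := by
    rw [← h1, AlgEquiv.symm_apply_apply]
  show (Polynomial.aeval (R := k₁) t₀) (E.symm ⟨T, _⟩) = t₀
  rw [h2, Polynomial.aeval_X]

theorem t_SPX : S_SPX := by
  intro k₁ k' _ _ _ _ T hR e t₀
  obtain ⟨ev, hev⟩ := exists_ev hR.1 t₀
  have hsurj : Function.Surjective (ev : Algebra.adjoin k₁ {T} →+* k₁) := fun c =>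
    ⟨algebraMap k₁ _ c, ev.commutes c⟩
  have hinj : Function.Injective (algebraMap (Algebra.adjoin k₁ {T})
      (integralClosure (Algebra.adjoin k₁ {T}) (AlgebraicClosure k'))) := by
    intro a b hab
    have h1 : algebraMap (Algebra.adjoin k₁ {T}) (AlgebraicClosure k') a =
        algebraMap (Algebra.adjoin k₁ {T}) (AlgebraicClosure k') b := by
      have := congrArg (fun z : integralClosure (Algebra.adjoin k₁ {T}) (AlgebraicClosure k') =>
        (z : AlgebraicClosure k')) hab
      exact this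
    have h2 : algebraMap k' (AlgebraicClosure k') (a : k') =
        algebraMap k' (AlgebraicClosure k') (b : k') := h1
    exact Subtype.ext ((algebraMap k' (AlgebraicClosure k')).injective h2)
  obtain ⟨ψ, hψ⟩ := lift_int (S := integralClosure (Algebra.adjoin k₁ {T}) (AlgebraicClosure k'))
    hinj (ev : Algebra.adjoin k₁ {T} →+* k₁) hsurj (K := AlgebraicClosure k₁)
  obtain ⟨hB1, hB2, -⟩ := BAS.t_BAS k₁ k' T e
  -- the map on `B`
  let j : B k₁ T →+* integralClosure (Algebra.adjoin k₁ {T}) (AlgebraicClosure k') :=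
    { toFun := fun x => ⟨x.1, x.2⟩
      map_one' := rfl
      map_mul' := fun _ _ => rfl
      map_zero' := rfl
      map_add' := fun _ _ => rfl }
  let θ0 : AlgebraicClosure k₁ →+* AlgebraicClosure k₁ :=
    { toFun := fun y => ψ (j ⟨e y, hB1 y⟩)
      map_one' := by
        have : (⟨e 1, hB1 1⟩ : B k₁ T) = 1 := Subtype.ext (map_one e)
        rw [this, map_one, map_one]
      map_mul' := fun x y => by
        have : (⟨e (x * y), hB1 (x * y)⟩ : B k₁ T) = ⟨e x, hB1 x⟩ * ⟨e y, hB1 y⟩ :=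
          Subtype.ext (map_mul e x y)
        rw [this, map_mul, map_mul]
      map_zero' := by
        have : (⟨e 0, hB1 0⟩ : B k₁ T) = 0 := Subtype.ext (map_zero e)
        rw [this, map_zero, map_zero]
      map_add' := fun x y => by
        have : (⟨e (x + y), hB1 (x + y)⟩ : B k₁ T) = ⟨e x, hB1 x⟩ + ⟨e y, hB1 y⟩ :=
          Subtype.ext (map_add e x y)
        rw [this, map_add, map_add] }
  have hθc : ∀ c : k₁, θ0 (algebraMap k₁ _ c) = algebraMap k₁ _ c := by
    intro c
    have h1 := hψ (algebraMap k₁ _ c)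
    have h2 : ((ev : Algebra.adjoin k₁ {T} →+* k₁)) (algebraMap k₁ _ c) = c := ev.commutes c
    rw [h2] at h1
    have h3 : j ⟨e (algebraMap k₁ _ c), hB1 _⟩ =
        algebraMap (Algebra.adjoin k₁ {T}) _ (algebraMap k₁ _ c) := by
      apply Subtype.ext
      show e (algebraMap k₁ _ c) = _
      rw [e.commutes]
      rfl
    show ψ (j ⟨e (algebraMap k₁ _ c), hB1 _⟩) = _
    rw [h3, h1]
  let θ : AlgebraicClosure k₁ →ₐ[k₁] AlgebraicClosure k₁ := { θ0 with commutes' := hθc }
  have hbij : Function.Bijective θ := Algebra.IsAlgebraic.algHom_bijective θ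
  let Θ : AlgebraicClosure k₁ ≃ₐ[k₁] AlgebraicClosure k₁ := AlgEquiv.ofBijective θ hbij
  refine ⟨(Θ.symm : AlgebraicClosure k₁ →+* AlgebraicClosure k₁).comp (ψ.comp j), ?_, ?_⟩
  · intro y hy
    show Θ.symm (ψ (j ⟨e y, hy⟩)) = y
    have : ψ (j ⟨e y, hy⟩) = Θ y := rfl
    rw [this, AlgEquiv.symm_apply_apply]
  · intro hT
    show Θ.symm (ψ (j ⟨algebraMap k' (AlgebraicClosure k') T, hT⟩)) = _
    have h1 : j ⟨algebraMap k' (AlgebraicClosure k') T, hT⟩ =
        algebraMap (Algebra.adjoin k₁ {T}) _ ⟨T, Algebra.subset_adjoin (Set.mem_singleton T)⟩ :=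
      Subtype.ext rfl
    have h2 : ((ev : Algebra.adjoin k₁ {T} →+* k₁))
        ⟨T, Algebra.subset_adjoin (Set.mem_singleton T)⟩ = t₀ := hev
    rw [h1, hψ, h2]
    exact Θ.symm.commutes t₀

end Pool.Agent.N890.FG.SPX
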