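import Pool.Agent.N890.FG.Stm
import Pool.Agent.N890.FG.CHG

/-!
Project FG, part START (helper318): base change of a Selmer class from a subfield `k` of `k'` to `k'`.
-/

set_option autoImplicit false

namespace Pool.Agent.N890.FG.START

open NumberField WeierstrassCurve IsDedekindDomain Pool.Agent.TH942 Pool.Agent.TH954 Pool.Agent.N890.FG
open scoped Classical

/-- the curve over the integers -/
def Z0 (a b : ℤ) : WeierstrassCurve ℤ := { a₁ := 0, a₂ := 0, a₃ := 0, a₄ := a, a₆ := b }

/-- the points of the curve over a field -/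
abbrev G (a b : ℤ) (Ω : Type) [Field Ω] : Type := ((Z0 a b).baseChange Ω).toAffine.Point

/-- the map on the points induced by a homomorphism -/
noncomputable def gm {a b : ℤ} {Ω Ω' : Type} [Field Ω] [Field Ω'] (f : Ω →+* Ω') : G a b Ω →+ G a b Ω' :=
  Affine.Point.map (W' := Z0 a b) f.toIntAlgHom

lemma gm_gm {a b : ℤ} {Ω₁ Ω₂ Ω₃ : Type} [Field Ω₁] [Field Ω₂] [Field Ω₃] (f : Ω₁ →+* Ω₂) (g : Ω₂ →+* Ω₃)
    (P : G a b Ω₁) : gm g (gm f P) = gm (g.comp f) P :=
  Affine.Point.map_map (W' := Z0 a b) f.toIntAlgHom g.toIntAlgHom P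

/-- transport along an equality of curves -/
noncomputable def cst {Ω : Type} [Field Ω] {W W' : WeierstrassCurve Ω} (h : W = W') :
    W.toAffine.Point ≃+ W'.toAffine.Point := by
  subst h
  exact AddEquiv.refl _

lemma cst_some {Ω : Type} [Field Ω] {W W' : WeierstrassCurve Ω} (h : W = W') {x y : Ω}
    (hxy : W.toAffine.Nonsingular x y) : cst h (.some x y hxy) = .some x y (h ▸ hxy) := by
  subst h
  rfl

lemma cst_crd {Ω : Type} [Field Ω] {W W' : WeierstrassCurve Ω} (h : W = W') (P : W.toAffine.Point) :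
    crd (cst h P) = crd P := by
  subst h
  rfl

lemma curve_eq (a b : ℤ) (K Ω : Type) [Field K] [Field Ω] [Algebra K Ω] :
    (sw (a : K) (b : K)).baseChange Ω = (Z0 a b).baseChange Ω := by
  unfold WeierstrassCurve.baseChange WeierstrassCurve.map sw Z0
  simp

/-- the points of `y² = x³ + a x + b`, seen as a curve over `K` -/
noncomputable def T {a b : ℤ} (K Ω : Type) [Field K] [Field Ω] [Algebra K Ω] :
    ((sw (a : K) (b : K)).baseChange Ω).toAffine.Point ≃+ G a b Ω := cst (curve_eq a b K Ω)

lemma T_crd {a b : ℤ} (K Ω : Type) [Field K] [Field Ω] [Algebra K Ω]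
    (P : ((sw (a : K) (b : K)).baseChange Ω).toAffine.Point) : crd (T K Ω P) = crd P := cst_crd _ P

lemma T_pm {a b : ℤ} (K : Type) {Ω Ω' : Type} [Field K] [Field Ω] [Field Ω'] [Algebra K Ω] [Algebra K Ω']
    (f : Ω →ₐ[K] Ω') (P : ((sw (a : K) (b : K)).baseChange Ω).toAffine.Point) :
    T K Ω' (pm (sw (a : K) (b : K)) f P) = gm (f : Ω →+* Ω') (T K Ω P) := by
  match P with
  | .zero =>
    have e : (Affine.Point.zero : ((sw (a : K) (b : K)).baseChange Ω).toAffine.Point) = 0 := rfl
    rw [e, map_zero, map_zero, map_zero, map_zero]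
  | .some x y hxy =>
    unfold T
    rw [cst_some]
    obtain ⟨h', e⟩ := pm_some (E := sw (a : K) (b : K)) f hxy
    rw [e, cst_some]
    rfl

lemma T_act {a b : ℤ} (K L : Type) [Field K] [Field L] [Algebra K L]
    (σ : AlgebraicClosure L ≃ₐ[L] AlgebraicClosure L) (P : AlgPt (sw (a : K) (b : K)) L) :
    T K (AlgebraicClosure L) (act (sw (a : K) (b : K)) σ P) =
      gm (σ : AlgebraicClosure L →+* AlgebraicClosure L) (T K (AlgebraicClosure L) P) := by
  unfold act
  rw [T_pm]
  rfl

lemma T_incl {a b : ℤ} (K L : Type) [Field K] [Field L] [Algebra K L]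
    (P : ((sw (a : K) (b : K)).baseChange L).toAffine.Point) :
    T K (AlgebraicClosure L) (incl (sw (a : K) (b : K)) L P) =
      gm (algebraMap L (AlgebraicClosure L)) (T K L P) := by
  unfold incl
  rw [T_pm]
  rfl

section galois

variable {k k' : Type} [Field k] [Field k'] [Algebra k k'] (j : AlgebraicClosure k →ₐ[k] AlgebraicClosure k')

/-- the restriction of an automorphism -/
noncomputable def res (g : AlgebraicClosure k' ≃ₐ[k'] AlgebraicClosure k') :
    AlgebraicClosure k ≃ₐ[k] AlgebraicClosure k := (exists_compat j g).choose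

lemma res_spec (g : AlgebraicClosure k' ≃ₐ[k'] AlgebraicClosure k') (z : AlgebraicClosure k) :
    j (res j g z) = g (j z) := (exists_compat j g).choose_spec z

lemma res_mul (g h : AlgebraicClosure k' ≃ₐ[k'] AlgebraicClosure k') :
    res j (g * h) = res j g * res j h := by
  apply AlgEquiv.ext
  intro z
  apply j.toRingHom.injective
  show j (res j (g * h) z) = j (res j g (res j h z))
  rw [res_spec, res_spec, res_spec]
  rfl

lemma cont (M0 : IntermediateField k (AlgebraicClosure k)) (h : FiniteDimensional k M0) :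
    ∃ M : IntermediateField k' (AlgebraicClosure k'), FiniteDimensional k' M ∧
      ∀ g g' : AlgebraicClosure k' ≃ₐ[k'] AlgebraicClosure k', (∀ x ∈ M, g x = g' x) →
        ∀ x ∈ M0, res j g x = res j g' x := by
  obtain ⟨S, hS⟩ : (Subalgebra.toSubmodule M0.toSubalgebra).FG :=
    (Submodule.fg_iff_finiteDimensional _).2 h
  refine ⟨IntermediateField.adjoin k' ((S.image j : Finset (AlgebraicClosure k')) : Set (AlgebraicClosure k')),
    ?_, fun g g' hg => ?_⟩
  · apply IntermediateField.finiteDimensional_adjoin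
    intro x _
    exact Algebra.IsIntegral.isIntegral x
  · have h1 : Set.EqOn (res j g).toLinearMap (res j g').toLinearMap (S : Set (AlgebraicClosure k)) := by
      intro x hx
      apply j.toRingHom.injective
      show j (res j g x) = j (res j g' x)
      rw [res_spec, res_spec]
      exact hg _ (IntermediateField.subset_adjoin _ _ (Finset.mem_coe.2 (Finset.mem_image_of_mem _ hx)))
    have h2 := LinearMap.eqOn_span h1
    intro x hx
    apply h2
    rw [hS]
    exact hx

/-- the base change of a cocycle -/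
noncomputable def base {F : Type} [Field F] [Algebra F k'] {a b : ℤ}
    (ξ : (AlgebraicClosure k ≃ₐ[k] AlgebraicClosure k) → AlgPt (sw (a : k) (b : k)) k)
    (g : AlgebraicClosure k' ≃ₐ[k'] AlgebraicClosure k') : AlgPt (sw (a : F) (b : F)) k' :=
  (T F (AlgebraicClosure k')).symm
    (gm (j : AlgebraicClosure k →+* AlgebraicClosure k') (T k (AlgebraicClosure k) (ξ (res j g))))

lemma T_base {F : Type} [Field F] [Algebra F k'] {a b : ℤ}
    (ξ : (AlgebraicClosure k ≃ₐ[k] AlgebraicClosure k) → AlgPt (sw (a : k) (b : k)) k)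
    (g : AlgebraicClosure k' ≃ₐ[k'] AlgebraicClosure k') :
    T F (AlgebraicClosure k') (base (F := F) j ξ g) =
      gm (j : AlgebraicClosure k →+* AlgebraicClosure k') (T k (AlgebraicClosure k) (ξ (res j g))) :=
  AddEquiv.apply_symm_apply _ _

lemma base_coc {F : Type} [Field F] [Algebra F k'] {a b : ℤ}
    (ξ : (AlgebraicClosure k ≃ₐ[k] AlgebraicClosure k) → AlgPt (sw (a : k) (b : k)) k)
    (hξ : IsCocycle (sw (a : k) (b : k)) ξ) : IsCoc (sw (a : F) (b : F)) k' (base (F := F) j ξ) := by
  obtain ⟨h1, M0, hM0, h2⟩ := hξ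
  refine ⟨fun g h => ?_, ?_⟩
  · apply (T F (AlgebraicClosure k')).injective
    rw [map_add, T_act, T_base, T_base, T_base, res_mul, h1, map_add, map_add, T_act, gm_gm, gm_gm]
    congr 2
    congr 1
    apply RingHom.ext
    intro z
    exact res_spec j g z
  · obtain ⟨M, hM, hMg⟩ := cont j M0 hM0
    refine ⟨M, hM, fun g g' hg => ?_⟩
    apply (T F (AlgebraicClosure k')).injective
    rw [T_base, T_base, h2 _ _ (hMg g g' hg)]

end galois

theorem start (hCHG : S_CHG) : S_START := by
  intro F k k' _ _ _ _ _ _ r a b _ N ξ hξ hN W L _ _ X hX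
  obtain ⟨j⟩ : Nonempty (AlgebraicClosure k →ₐ[k] AlgebraicClosure k') := ⟨IsAlgClosed.lift⟩
  refine ⟨fun i => base j (ξ i), fun i => base_coc j (ξ i) (hξ i), fun i g => ?_, fun w φ => ?_⟩
  · apply (T F (AlgebraicClosure k')).injective
    rw [map_nsmul, T_base, ← map_nsmul, ← map_nsmul, hN i, map_zero, map_zero, map_zero]
  · let i1 : Algebra k (L w) := ((φ : k' →+* L w).comp (algebraMap k k')).toAlgebra
    obtain ⟨ι₀, P, Q, hXP, hQ, hrel⟩ := hX w φ
    let i2 : Algebra k' (L w) := (φ : k' →+* L w).toAlgebra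
    obtain ⟨ι'⟩ : Nonempty (AlgebraicClosure k' →ₐ[k'] AlgebraicClosure (L w)) := ⟨IsAlgClosed.lift⟩
    have hι' : ∀ x : k', ι' (algebraMap k' (AlgebraicClosure k') x) =
        algebraMap (L w) (AlgebraicClosure (L w)) (φ x) := fun x => by
      rw [ι'.commutes]
      rfl
    obtain ⟨ι, hι⟩ : ∃ ι : AlgebraicClosure k' →ₐ[F] AlgebraicClosure (L w), ∀ z, ι z = ι' z :=
      ⟨{ (ι' : AlgebraicClosure k' →+* AlgebraicClosure (L w)) with
          commutes' := fun x => by
            show ι' (algebraMap F (AlgebraicClosure k') x) = _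
            rw [IsScalarTower.algebraMap_apply F k' (AlgebraicClosure k'), hι', φ.commutes]
            rfl }, fun _ => rfl⟩
    obtain ⟨ι₁, hι₁⟩ : ∃ ι₁ : AlgebraicClosure k →ₐ[k] AlgebraicClosure (L w), ∀ z, ι₁ z = ι' (j z) :=
      ⟨{ (ι' : AlgebraicClosure k' →+* AlgebraicClosure (L w)).comp
            (j : AlgebraicClosure k →+* AlgebraicClosure k') with
          commutes' := fun x => by
            show ι' (j (algebraMap k (AlgebraicClosure k) x)) = _
            rw [j.commutes, IsScalarTower.algebraMap_apply k k' (AlgebraicClosure k'), hι']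
            rfl }, fun _ => rfl⟩
    have hchg := fun i => hCHG k k (L w) (sw (a i : k) (b i : k)) N (ξ i) (hξ i).1 (hN i) ι₀ ι₁
      (algebraMap k (L w)) (fun x => ι₀.commutes x) (fun x => ι₁.commutes x) (P i) (Q i) (hQ i)
      (fun σ τ h => hrel i σ τ h)
    choose Q' hQ'1 hQ'2 using hchg
    refine ⟨ι, fun i => (T F (L w)).symm (T k (L w) (P i)),
      fun i => (T F (AlgebraicClosure (L w))).symm (T k (AlgebraicClosure (L w)) (Q' i)),
      fun x => by rw [hι, hι'], ?_, fun i => ?_, fun i σ τ hστ => ?_⟩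
    · have e : (fun i => crd ((T F (L w)).symm (T k (L w) (P i)))) = fun i => crd (P i) := by
        funext i
        rw [← T_crd F (L w), AddEquiv.apply_symm_apply, T_crd]
      rw [e]
      exact hXP
    · apply (T F (AlgebraicClosure (L w))).injective
      rw [map_nsmul, AddEquiv.apply_symm_apply, ← map_nsmul, hQ'1, T_incl, T_incl, AddEquiv.apply_symm_apply]
    · apply (T F (AlgebraicClosure (L w))).injective
      have h3 := hQ'2 i σ (res j τ) (fun z => by rw [hι₁, hι₁, res_spec, ← hι, hστ, hι])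
      have h4 := congrArg (T k (AlgebraicClosure (L w))) h3
      rw [T_pm, map_sub, T_act] at h4
      rw [T_pm, T_base, gm_gm, map_sub, T_act, AddEquiv.apply_symm_apply, ← h4]
      congr 1
      congr 1
      apply RingHom.ext
      intro z
      show ι (j z) = ι₁ z
      rw [hι, hι₁]

theorem t_START : S_START := start CHG.t_CHG

end Pool.Agent.N890.FG.START
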