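import Pool.Agent.N890.FG.Stm

/-! Project FG (helper890): specialisation of a Selmer class from `k₁ (T)` to `k₁`. -/

set_option autoImplicit false
set_option linter.unusedSectionVars false

namespace Pool.Agent.N890.FG.STEP

open NumberField WeierstrassCurve IsDedekindDomain Pool.Agent.TH942 Pool.Agent.TH954 Filter
open Pool.Agent.N890.FG
open scoped Topology

/-- two embeddings of the algebraic closure of `k` which extend the same embedding of `k` -/
lemma exists_ext {k L : Type} [Field k] [Field L] (ι ι' : AlgebraicClosure k →+* AlgebraicClosure L)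
    (h : ∀ x, ι (algebraMap k _ x) = ι' (algebraMap k _ x)) :
    ∃ g : AlgebraicClosure k ≃ₐ[k] AlgebraicClosure k, ∀ z, ι (g z) = ι' z := by
  letI : Algebra k (AlgebraicClosure L) := (ι.comp (algebraMap k _)).toAlgebra
  let f : AlgebraicClosure k →ₐ[k] AlgebraicClosure L := { ι with commutes' := fun x => rfl }
  let f' : AlgebraicClosure k →ₐ[k] AlgebraicClosure L :=
    { ι' with commutes' := fun x => (h x).symm }
  letI : Algebra (AlgebraicClosure k) (AlgebraicClosure L) := f.toRingHom.toAlgebra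
  have : IsScalarTower k (AlgebraicClosure k) (AlgebraicClosure L) :=
    IsScalarTower.of_algebraMap_eq' f.comp_algebraMap.symm
  refine ⟨f'.restrictNormal' (AlgebraicClosure k), fun z => ?_⟩
  exact AlgHom.restrictNormal_commutes f' (AlgebraicClosure k) z

section pts

variable {F : Type} [Field F] {E : WeierstrassCurve F}

open scoped Classical in
lemma act_pm_gen {k₁ k₂ : Type} [Field k₁] [Field k₂] [Algebra F k₁] [Algebra F k₂]
    (f : AlgebraicClosure k₁ →ₐ[F] AlgebraicClosure k₂)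
    (σ₂ : AlgebraicClosure k₂ ≃ₐ[k₂] AlgebraicClosure k₂)
    (σ₁ : AlgebraicClosure k₁ ≃ₐ[k₁] AlgebraicClosure k₁) (h : ∀ z, f (σ₁ z) = σ₂ (f z))
    (R : AlgPt E k₁) : act E σ₂ (pm E f R) = pm E f (act E σ₁ R) := by
  unfold act
  rw [pm_pm, pm_pm]
  congr 2
  apply AlgHom.ext
  intro z
  exact (h z).symm

end pts

/-- a map from `ℕ` with values in a finite set is constant along an ultrafilter -/
lemma exists_const {α : Type} (𝒰 : Ultrafilter ℕ) (f : ℕ → α) (S : Set α) (hS : S.Finite)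
    (h : ∀ᶠ j in (𝒰 : Filter ℕ), f j ∈ S) : ∃ a ∈ S, ∀ᶠ j in (𝒰 : Filter ℕ), f j = a := by
  have h1 : ⋃ a ∈ S, {j | f j = a} ∈ 𝒰 := by
    refine mem_of_superset h fun j hj => ?_
    simp only [Set.mem_iUnion, Set.mem_ofPred_eq]
    exact ⟨f j, hj, rfl⟩
  obtain ⟨a, ha, h2⟩ := (Ultrafilter.finite_biUnion_mem_iff hS).1 h1
  exact ⟨a, ha, h2⟩

lemma lim_unique {L : Type} [Field L] (v : AbsoluteValue L ℝ) (𝒰 : Ultrafilter ℕ) (u : ℕ → L)
    (x y : L) (hx : Tendsto (fun j => v (u j - x)) 𝒰 (𝓝 0))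
    (hy : Tendsto (fun j => v (u j - y)) 𝒰 (𝓝 0)) : x = y := by
  have h1 : Tendsto (fun j => v (u j - x) + v (u j - y)) 𝒰 (𝓝 (0 + 0)) := hx.add hy
  rw [add_zero] at h1
  have h2 : v (x - y) ≤ 0 := by
    refine ge_of_tendsto h1 (Eventually.of_forall fun j => ?_)
    have h3 := v.sub_le x (u j) y
    rwa [v.map_sub x (u j)] at h3
  have h3 : v (x - y) = 0 := le_antisymm h2 (v.nonneg _)
  exact sub_eq_zero.1 (v.eq_zero.1 h3)

lemma agree_adjoin {K Ω : Type} [Field K] [Field Ω] [Algebra K Ω] (f g : Ω ≃ₐ[K] Ω) (α : Ω)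
    (h : f α = g α) (x : Ω) (hx : x ∈ IntermediateField.adjoin K {α}) : f x = g x := by
  induction hx using IntermediateField.adjoin_induction with
  | mem x hx =>
    rw [Set.mem_singleton_iff] at hx
    rw [hx, h]
  | algebraMap x => rw [f.commutes, g.commutes]
  | add x y _ _ hx hy => rw [map_add, map_add, hx, hy]
  | inv x _ hx => rw [map_inv₀, map_inv₀, hx]
  | mul x y _ _ hx hy => rw [map_mul, map_mul, hx, hy]

open scoped Classical in
theorem t_STEP (hBAS : S_BAS) (hSPX : S_SPX) (hCNJ : S_CNJ) (hUNR : S_UNR) (hLIM : S_LIM)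
    (hTRN : S_TRN) (hCHG : S_CHG) (hLOF : S_LOF) (hFNQ : S_FNQ) (hTFN : S_TFN) (hTOR : S_TOR) :
    S_STEP := by
  intro F k₁ k' _ _ _ _ _ _ _ _ _ _ T hT r a b hdisc N hN X ⟨ξ, hcoc, hN0, hloc⟩
  have hc' : CharZero k' := charZero_of_injective_algebraMap (algebraMap k₁ k').injective
  let e : AlgebraicClosure k₁ →ₐ[k₁] AlgebraicClosure k' := IsAlgClosed.lift
  let e' : AlgebraicClosure k₁ →ₐ[F] AlgebraicClosure k' := e.restrictScalars F
  have he' : ∀ y, e' y = e y := fun y => rfl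
  obtain ⟨hBe, hBT, hBg⟩ := hBAS k₁ k' T e
  -- the fields of definition
  choose hcoc1 Mi hMfin hMi using hcoc
  have hMfin' : FiniteDimensional k' (⨆ i, Mi i : IntermediateField k' (AlgebraicClosure k')) :=
    IntermediateField.finiteDimensional_iSup_of_finite
  obtain ⟨α, hα, hMα, t₀, hsep⟩ := hUNR k₁ k' T hT e _ hMfin'
  obtain ⟨π, hπ⟩ := hSPX k₁ k' T hT e t₀
  have hsep' := hsep π hπ
  choose g hge hgπ using fun τ => hCNJ k₁ k' T hT e t₀ π π hπ hπ τ
  have hagree : ∀ g₁ g₂ : AlgebraicClosure k' ≃ₐ[k'] AlgebraicClosure k', g₁ α = g₂ α →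
      ∀ i, ξ i g₁ = ξ i g₂ := by
    intro g₁ g₂ h i
    exact hMi i g₁ g₂ fun x hx => agree_adjoin g₁ g₂ α h x (hMα ((le_iSup Mi i) hx))
  -- the descended cocycle
  choose R hR using fun i τ => hTOR F k₁ k' e e' he' (a i) (b i) (hdisc i) N hN (ξ i (g τ))
    (hN0 i (g τ))
  have hinj : ∀ i, Function.Injective (pm (sw (a i : F) (b i : F)) e') := fun i =>
    pm_injective e'
  have hRg : ∀ i τ, R i τ = R i τ := fun _ _ => rfl
  -- two lifts which agree after `π`
  have hlift : ∀ g₁ g₂ : AlgebraicClosure k' ≃ₐ[k'] AlgebraicClosure k',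
      π ⟨g₁ α, hBg g₁ α hα⟩ = π ⟨g₂ α, hBg g₂ α hα⟩ → ∀ i, ξ i g₁ = ξ i g₂ := fun g₁ g₂ h =>
    hagree g₁ g₂ (hsep' g₁ g₂ _ _ h)
  have hmul : ∀ i τ τ', ξ i (g (τ * τ')) = ξ i (g τ * g τ') := by
    intro i τ τ'
    refine hlift _ _ ?_ i
    have h1 := hgπ (τ * τ') α hα (hBg _ _ hα)
    have h2 := hgπ τ (g τ' α) (hBg _ _ hα) (hBg _ _ (hBg _ _ hα))
    have h3 := hgπ τ' α hα (hBg _ _ hα)
    rw [h1]
    change _ = π ⟨g τ (g τ' α), _⟩
    rw [h2, h3]
    rfl
  refine ⟨R, fun i => ⟨fun τ τ' => ?_, ?_⟩, fun i τ => ?_, fun w φ₁ => ?_⟩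
  · apply hinj i
    rw [map_add, hR, hR, hmul, hcoc1 i]
    congr 1
    rw [← hR i τ', act_pm_gen e' (g τ) τ (fun z => (hge τ z).symm)]
  · refine ⟨IntermediateField.adjoin k₁ {π ⟨α, hα⟩}, ?_, fun τ τ' h => ?_⟩
    · exact IntermediateField.adjoin.finiteDimensional
        (Algebra.IsIntegral.isIntegral (R := k₁) (π ⟨α, hα⟩))
    · apply hinj i
      rw [hR, hR]
      refine hlift _ _ ?_ i
      rw [hgπ τ α hα, hgπ τ' α hα]
      exact h _ (IntermediateField.mem_adjoin_simple_self k₁ _)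
  · apply hinj i
    rw [map_zero, map_nsmul, hR]
    exact hN0 i (g τ)
  · -- the local condition
    obtain ⟨v, hv⟩ := hLOF F w
    obtain ⟨hvσ, hvu⟩ := hv
    obtain ⟨φ, hφ1, hφT⟩ := hTRN F k₁ k' T hT (w.adicCompletion F) v ⟨hvσ, hvu⟩ φ₁ t₀
    choose ι P Q hι hX hQ hrel using fun j => hloc w (φ j)
    let ι₀ : AlgebraicClosure k₁ →ₐ[F] AlgebraicClosure (w.adicCompletion F) := (ι 0).comp e'
    have hι₀ : ∀ x, ι₀ (algebraMap k₁ _ x) = algebraMap _ _ (φ₁ x) := by
      intro x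
      change ι 0 (e (algebraMap k₁ _ x)) = _
      rw [e.commutes, IsScalarTower.algebraMap_apply k₁ k' (AlgebraicClosure k'), hι, hφ1]
    -- embeddings which extend `ι₀`
    have hex1 : ∀ j, ∃ h : AlgebraicClosure k₁ ≃ₐ[k₁] AlgebraicClosure k₁,
        ∀ z, ι j (e (h z)) = ι₀ z := by
      intro j
      refine exists_ext (((ι j).comp e').toRingHom) ι₀.toRingHom fun x => ?_
      change ι j (e (algebraMap k₁ _ x)) = ι₀ (algebraMap k₁ _ x)
      rw [hι₀, e.commutes, IsScalarTower.algebraMap_apply k₁ k' (AlgebraicClosure k'), hι, hφ1]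
    choose h hh using hex1
    let κ : ℕ → (AlgebraicClosure k' →ₐ[F] AlgebraicClosure (w.adicCompletion F)) := fun j =>
      (ι j).comp ((g (h j)).toAlgHom.restrictScalars F)
    have hκ : ∀ j z, κ j z = ι j (g (h j) z) := fun j z => rfl
    have hκe : ∀ j y, κ j (e y) = ι₀ y := by
      intro j y
      rw [hκ, hge, hh]
    have hκk : ∀ j x, κ j (algebraMap k' _ x) = algebraMap _ _ (φ j x) := by
      intro j x
      rw [hκ, (g (h j)).commutes, hι]
    let 𝒰 : Ultrafilter ℕ := hyperfilter ℕ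
    have h𝒰 : (𝒰 : Filter ℕ) ≤ atTop := Nat.hyperfilter_le_atTop
    obtain ⟨πw, hπw, hlim⟩ := hLIM k₁ k' T hT e t₀ (w.adicCompletion F) v ι₀.toRingHom
      (fun j => (κ j).toRingHom) (fun j y => hκe j y) (by
        refine hφT.congr fun j => ?_
        congr 1
        change _ = κ j (algebraMap k' _ T) - ι₀ (algebraMap k₁ _ t₀)
        rw [hκk, hι₀, map_sub]) 𝒰 h𝒰
    obtain ⟨g₀, hg₀e, hg₀π⟩ := hCNJ k₁ k' T hT e t₀ π πw hπ hπw 1
    let lam : ℕ → (AlgebraicClosure k' →ₐ[F] AlgebraicClosure (w.adicCompletion F)) := fun j =>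
      (κ j).comp (g₀.toAlgHom.restrictScalars F)
    have hlam : ∀ j z, lam j z = κ j (g₀ z) := fun j z => rfl
    have hlame : ∀ j y, lam j (e y) = ι₀ y := by
      intro j y
      rw [hlam, hg₀e]
      exact hκe j y
    have hlamk : ∀ j x, lam j (algebraMap k' _ x) = algebraMap _ _ (φ j x) := by
      intro j x
      rw [hlam, g₀.commutes, hκk]
    have hlaml : ∀ x (hx : x ∈ B k₁ T), Tendsto (fun j => v (lam j x - ι₀ (π ⟨x, hx⟩))) 𝒰
        (𝓝 0) := by
      intro x hx
      have h1 := hlim (g₀ x) (hBg _ _ hx)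
      rw [hg₀π x hx] at h1
      exact h1
    -- change of the embedding
    have hex2 : ∀ j i, ∃ Q' : AlgPt (sw (a i : F) (b i : F)) (w.adicCompletion F),
        N • Q' = incl (sw (a i : F) (b i : F)) (w.adicCompletion F) (P j i) ∧
        ∀ (σ : AlgebraicClosure (w.adicCompletion F) ≃ₐ[w.adicCompletion F]
            AlgebraicClosure (w.adicCompletion F))
          (τ : AlgebraicClosure k' ≃ₐ[k'] AlgebraicClosure k'),
          (∀ z, lam j (τ z) = σ (lam j z)) →
          pm (sw (a i : F) (b i : F)) (lam j) (ξ i τ) = act (sw (a i : F) (b i : F)) σ Q' - Q' :=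
      fun j i => hCHG F k' (w.adicCompletion F) (sw (a i : F) (b i : F)) N (ξ i) (hcoc1 i) (hN0 i)
        (ι j) (lam j) (φ j : k' →+* w.adicCompletion F) (hι j) (hlamk j) (P j i) (Q j i) (hQ j i)
        (hrel j i)
    choose Q' hQ' hrel' using hex2
    -- constant classes
    choose n S hS using fun i => hFNQ F w (a i) (b i) (hdisc i) N hN
    choose c R' hc using fun j i => hS i (P j i)
    obtain ⟨c₀, -, hc₀⟩ := exists_const 𝒰 (fun j => (c j : ∀ i, Fin (n i))) Set.univ
      (Set.toFinite _) (Eventually.of_forall fun j => Set.mem_univ _)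
    let D : ℕ → ∀ i, AlgPt (sw (a i : F) (b i : F)) (w.adicCompletion F) := fun j i =>
      Q' j i - incl (sw (a i : F) (b i : F)) (w.adicCompletion F) (R' j i)
    have hfin : ∀ i, {Q : AlgPt (sw (a i : F) (b i : F)) (w.adicCompletion F) |
        N • Q = incl (sw (a i : F) (b i : F)) (w.adicCompletion F) (S i (c₀ i))}.Finite := by
      intro i
      rcases Set.eq_empty_or_nonempty {Q : AlgPt (sw (a i : F) (b i : F)) (w.adicCompletion F) |
        N • Q = incl (sw (a i : F) (b i : F)) (w.adicCompletion F) (S i (c₀ i))} with h1 | ⟨Q₀, h1⟩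
      · rw [h1]
        exact Set.finite_empty
      · have hcL : CharZero (w.adicCompletion F) :=
          charZero_of_injective_algebraMap (algebraMap F (w.adicCompletion F)).injective
        refine ((hTFN F (w.adicCompletion F) (a i) (b i) (hdisc i) N hN).image
          (fun Q => Q + Q₀)).subset fun Q hQ => ⟨Q - Q₀, ?_, sub_add_cancel _ _⟩
        change N • (Q - Q₀) = 0
        rw [nsmul_sub, hQ, h1, sub_self]
    obtain ⟨D₀, -, hD₀⟩ := exists_const 𝒰 D
      (Set.pi Set.univ fun i => {Q : AlgPt (sw (a i : F) (b i : F)) (w.adicCompletion F) |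
        N • Q = incl (sw (a i : F) (b i : F)) (w.adicCompletion F) (S i (c₀ i))})
      (Set.Finite.pi fun i => hfin i) (by
        filter_upwards [hc₀] with j hj i _
        change N • (Q' j i - incl (sw (a i : F) (b i : F)) (w.adicCompletion F) (R' j i)) = _
        have h1 : incl (sw (a i : F) (b i : F)) (w.adicCompletion F) (P j i) =
            incl (sw (a i : F) (b i : F)) (w.adicCompletion F) (S i (c j i)) +
            N • incl (sw (a i : F) (b i : F)) (w.adicCompletion F) (R' j i) := by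
          conv_lhs => rw [hc j i]
          unfold incl
          rw [map_add, map_nsmul]
        rw [nsmul_sub, hQ', h1, add_sub_cancel_right, show c j i = c₀ i from congrFun hj i])
    obtain ⟨j₀, hj₀⟩ := (hD₀.and hc₀).exists
    refine ⟨ι₀, P j₀, Q' j₀, hι₀, hX j₀, hQ' j₀, fun i σ τ hστ => ?_⟩
    have hex3 : ∀ j, ∃ γ : AlgebraicClosure k' ≃ₐ[k'] AlgebraicClosure k',
        ∀ z, lam j (γ z) = σ (lam j z) := by
      intro j
      refine exists_ext (lam j).toRingHom ((σ : AlgebraicClosure (w.adicCompletion F) →+*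
        AlgebraicClosure (w.adicCompletion F)).comp (lam j).toRingHom) fun x => ?_
      change lam j (algebraMap k' _ x) = σ (lam j (algebraMap k' _ x))
      rw [hlamk, σ.commutes]
    choose γ hγ using hex3
    obtain ⟨β, hβ1, hβ⟩ := exists_const 𝒰 (fun j => γ j α)
      ((minpoly k' α).rootSet (AlgebraicClosure k')) (Polynomial.rootSet_finite _ _)
      (Eventually.of_forall fun j => by
        rw [Polynomial.mem_rootSet]
        refine ⟨minpoly.ne_zero (Algebra.IsIntegral.isIntegral (R := k') α), ?_⟩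
        have h1 : Polynomial.aeval (γ j α) (minpoly k' α) =
            γ j (Polynomial.aeval α (minpoly k' α)) :=
          Polynomial.aeval_algHom_apply (γ j : AlgebraicClosure k' →ₐ[k'] AlgebraicClosure k') α _
        rw [h1, minpoly.aeval, map_zero])
    obtain ⟨j₂, ⟨hj₂D, hj₂c⟩, hj₂⟩ := ((hD₀.and hc₀).and hβ).exists
    have hβB : β ∈ B k₁ T := by
      rw [← hj₂]
      exact hBg _ _ hα
    have hπβ : π ⟨β, hβB⟩ = τ (π ⟨α, hα⟩) := by
      apply ι₀.toRingHom.injective
      refine lim_unique v 𝒰 (fun j => lam j β) _ _ (hlaml β hβB) ?_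
      refine (hlaml α hα).congr' ?_
      filter_upwards [hβ] with j hj
      have h1 : lam j β = σ (lam j α) := by rw [← hj, hγ]
      have h2 : ι₀.toRingHom (τ (π ⟨α, hα⟩)) = σ (ι₀ (π ⟨α, hα⟩)) := hστ _
      rw [h1, h2, ← map_sub, hvσ]
    have hξ : ξ i (γ j₂) = ξ i (g τ) := by
      refine hlift _ _ ?_ i
      rw [hgπ τ α hα, ← hπβ]
      congr 1
      exact Subtype.ext hj₂
    have h1 : pm (sw (a i : F) (b i : F)) ι₀ (R i τ) =
        pm (sw (a i : F) (b i : F)) (lam j₂) (ξ i (γ j₂)) := by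
      rw [hξ, ← hR, pm_pm]
      congr 2
      apply AlgHom.ext
      intro z
      exact (hlame j₂ z).symm
    rw [h1, hrel' j₂ i σ (γ j₂) (hγ j₂)]
    have h2 : Q' j₂ i = Q' j₀ i - incl (sw (a i : F) (b i : F)) (w.adicCompletion F) (R' j₀ i) +
        incl (sw (a i : F) (b i : F)) (w.adicCompletion F) (R' j₂ i) := by
      have h3 : D j₂ i = D j₀ i := by rw [hj₂D, hj₀.1]
      change Q' j₂ i - _ = Q' j₀ i - _ at h3
      rw [← h3, sub_add_cancel]
    rw [h2, act_add, act_sub, act_incl, act_incl]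
    abel

end Pool.Agent.N890.FG.STEP
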