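import Pool.Agent.N890.FG.Stm
import Pool.Agent.TH954.STor

/-!
Project FG (helper890), piece TFN: finiteness of the torsion over the algebraic closures.
-/

set_option autoImplicit false

namespace Pool.Agent.N890.FG.TFN

open NumberField WeierstrassCurve IsDedekindDomain Pool.Agent.TH942 Pool.Agent.TH954 Filter
open Pool.Agent.N890.FG

theorem t_TFN : S_TFN := by
  intro F L _ _ _ _ a b hab N hN
  have hF : CharZero F := ((algebraMap F L).charZero_iff (algebraMap F L).injective).2 inferInstance
  have hM : CharZero (AlgebraicClosure L) :=
    charZero_of_injective_algebraMap (algebraMap L (AlgebraicClosure L)).injective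
  have hD : 4 * (a : F) ^ 3 + 27 * (b : F) ^ 2 ≠ 0 := by exact_mod_cast hab
  exact (card_base_lt hD (AlgebraicClosure L) hN).1

end Pool.Agent.N890.FG.TFN
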