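import Pool.Agent.N890.FG.Stm
import Pool.Agent.TH954.STor

/-!
Project FG (helper890), piece TOR: the torsion over the algebraic closure of `k'` comes from the
algebraic closure of `k₁`.
-/

set_option autoImplicit false

namespace Pool.Agent.N890.FG.TOR

open NumberField WeierstrassCurve IsDedekindDomain Pool.Agent.TH942 Pool.Agent.TH954 Filter
open Pool.Agent.N890.FG

theorem t_TOR : Pool.Agent.N890.FG.S_TOR := by
  intro F k₁ k' _ _ _ _ _ _ _ _ e e' he a b hab N hN Q hQ
  have hF : CharZero F :=
    ((algebraMap F k₁).charZero_iff (algebraMap F k₁).injective).2 inferInstance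
  have hk : CharZero (AlgebraicClosure k₁) :=
    charZero_of_injective_algebraMap (algebraMap k₁ (AlgebraicClosure k₁)).injective
  have hM : CharZero (AlgebraicClosure k') :=
    ((e' : AlgebraicClosure k₁ →+* AlgebraicClosure k').charZero_iff e'.injective).1 hk
  have hD : 4 * (a : F) ^ 3 + 27 * (b : F) ^ 2 ≠ 0 := by exact_mod_cast hab
  exact torsion_mem hD e' N hN Q hQ

end Pool.Agent.N890.FG.TOR
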