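import Pool.Agent.N890.FG.Stm0

/-!
Project FG (helper890), part TRN: embeddings of `k₁(T)` near a point (helper227).
-/

set_option autoImplicit false

namespace Pool.Agent.N890.FG.TRN

open Pool.Agent.N890.FG Filter
open scoped Topology

/-- Homomorphisms from `k₁(T)`, given by the image of `T`. -/
theorem exists_hom {k₁ k' L : Type} [Field k₁] [Field k'] [Algebra k₁ k'] [Field L] [Algebra k₁ L]
    {T : k'} (hR : Rat k₁ k' T) {t : L} (ht : Transcendental k₁ t) :
    ∃ φ : k' →ₐ[k₁] L, φ T = t := by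
  let e1 := RatFunc.algEquivOfTranscendental T hR.1
  let e2 := RatFunc.algEquivOfTranscendental t ht
  let e3 : k' ≃ₐ[k₁] IntermediateField.adjoin k₁ {T} :=
    (IntermediateField.topEquiv.symm).trans (IntermediateField.equivOfEq hR.2.symm)
  refine ⟨(IntermediateField.val _).comp (e2.toAlgHom.comp (e1.symm.toAlgHom.comp e3.toAlgHom)), ?_⟩
  have h3 : e3 T = IntermediateField.AdjoinSimple.gen k₁ T := Subtype.ext rfl
  show ((e2 (e1.symm (e3 T)) : IntermediateField.adjoin k₁ {t}) : L) = t
  rw [h3, RatFunc.algEquivOfTranscendental_symm_gen, RatFunc.algEquivOfTranscendental_X]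

theorem t_TRN : S_TRN := by
  intro F k₁ k' _ _ _ _ _ _ _ _ _ T hR L _ _ v hLF φ₁ t₀
  let _ : Algebra k₁ L := (φ₁ : k₁ →+* L).toAlgebra
  have hal : ∀ c : k₁, algebraMap k₁ L c = φ₁ c := fun c => rfl
  have hcount : Set.Countable {x : L | IsAlgebraic k₁ x} := Algebraic.countable k₁ L
  have hex : ∀ j : ℕ, ∃ t : L, Transcendental k₁ t ∧
      v (algebraMap L (AlgebraicClosure L) (t - φ₁ t₀)) < 1 / ((j : ℝ) + 1) := by
    intro j
    by_contra hcon
    push Not at hcon
    apply hLF.2 (1 / ((j : ℝ) + 1)) (by positivity)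
    have h1 : {x : L | v (algebraMap L (AlgebraicClosure L) x) < 1 / ((j : ℝ) + 1)} ⊆
        (fun x : L => x + φ₁ t₀) ⁻¹' {x : L | IsAlgebraic k₁ x} := by
      intro x hx
      by_contra hx2
      have := hcon (x + φ₁ t₀) hx2
      rw [add_sub_cancel_right] at this
      exact absurd hx (not_lt.2 this)
    exact (hcount.preimage_of_injOn (add_left_injective _).injOn).mono h1
  choose t ht htv using hex
  choose ψ hψ using fun j => exists_hom hR (ht j)
  have hF : ∀ j (c : F), ψ j (algebraMap F k' c) = algebraMap F L c := by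
    intro j c
    rw [IsScalarTower.algebraMap_apply F k₁ k', AlgHom.commutes, hal, AlgHom.commutes]
  refine ⟨fun j => { (ψ j : k' →+* L) with commutes' := hF j }, fun j x => ?_, ?_⟩
  · exact (ψ j).commutes x
  · have h1 : ∀ j, v (algebraMap L (AlgebraicClosure L) (ψ j T - φ₁ t₀)) ≤ 1 / ((j : ℝ) + 1) := by
      intro j
      rw [hψ]
      exact (htv j).le
    exact squeeze_zero (fun j => v.nonneg _) h1 tendsto_one_div_add_atTop_nhds_zero_nat

end Pool.Agent.N890.FG.TRN
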