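import Pool.Agent.N890.FG.Stm0

/-!
Project FG (helper890): UNR, almost all points are unramified (helper514).
-/

set_option autoImplicit false

namespace Pool.Agent.N890.FG.UNR

open Pool.Agent.N890.FG Polynomial

/-- the field is the field of fractions of the polynomial ring -/
lemma frac {k₁ k' : Type} [Field k₁] [Field k'] [Algebra k₁ k'] {T : k'} (h : Rat k₁ k' T) :
    IsFractionRing (Algebra.adjoin k₁ {T}) k' := by
  refine .of_field _ _ fun z => ?_
  have hz : z ∈ IntermediateField.adjoin k₁ {T} := by rw [h.2]; trivial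
  obtain ⟨x, hx, y, hy, eq⟩ := IntermediateField.mem_adjoin_iff_div.mp hz
  exact ⟨⟨x, hx⟩, ⟨y, hy⟩, eq⟩

/-- it is integrally closed -/
lemma closed {k₁ k' : Type} [Field k₁] [Field k'] [Algebra k₁ k'] {T : k'} (h : Rat k₁ k' T) :
    IsIntegrallyClosed (Algebra.adjoin k₁ {T}) := by
  have h1 : Function.Injective (aeval (R := k₁) T) := transcendental_iff_injective.1 h.1
  let f : k₁[X] ≃ₐ[k₁] (aeval (R := k₁) T).range := AlgEquiv.ofInjective _ h1
  have h2 : (aeval (R := k₁) T).range = Algebra.adjoin k₁ {T} :=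
    (Algebra.adjoin_singleton_eq_range_aeval k₁ T).symm
  let g : k₁[X] ≃ₐ[k₁] Algebra.adjoin k₁ {T} := f.trans (Subalgebra.equivOfEq _ _ h2)
  exact IsIntegrallyClosed.of_equiv g.toRingEquiv

theorem t_UNR : S_UNR := by
  classical
  intro k₁ k' _ _ _ _ T hT e M hM
  have := frac hT
  have := closed hT
  have : CharZero k' := charZero_of_injective_algebraMap (algebraMap k₁ k').injective
  -- a primitive element which is integral
  obtain ⟨a, ha⟩ := Field.exists_primitive_element k' M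
  have ha' : IntermediateField.adjoin k' {(a : AlgebraicClosure k')} = M := by
    rw [← IntermediateField.lift_adjoin_simple, ha, IntermediateField.lift_top]
  have halg : IsAlgebraic (Algebra.adjoin k₁ {T}) (a : AlgebraicClosure k') := by
    rw [IsFractionRing.isAlgebraic_iff (Algebra.adjoin k₁ {T}) k' (AlgebraicClosure k')]
    exact Algebra.IsAlgebraic.isAlgebraic _
  obtain ⟨d, hd, hint⟩ := halg.exists_integral_multiple
  obtain ⟨α, hα⟩ : ∃ α : AlgebraicClosure k', α = d • (a : AlgebraicClosure k') := ⟨_, rfl⟩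
  have hαB : α ∈ B k₁ T := by
    rw [hα]
    exact hint
  have hd' : (d : k') ≠ 0 := by
    intro h
    exact hd (Subtype.ext h)
  have hsm : α = algebraMap k' (AlgebraicClosure k') (d : k') * a := by
    rw [hα]
    rw [Algebra.smul_def]
    rfl
  have hM2 : M ≤ IntermediateField.adjoin k' {α} := by
    rw [← ha', IntermediateField.adjoin_simple_le_iff]
    have h1 : (a : AlgebraicClosure k') = algebraMap k' (AlgebraicClosure k') (d : k')⁻¹ * α := by
      rw [hsm, ← mul_assoc, ← map_mul, inv_mul_cancel₀ hd', map_one, one_mul]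
    rw [h1]
    exact mul_mem (IntermediateField.algebraMap_mem _ _) (IntermediateField.mem_adjoin_simple_self _ _)
  refine ⟨α, hαB, hM2, ?_⟩
  -- the conjugates
  have hconj : ∀ x ∈ (minpoly k' α).rootSet (AlgebraicClosure k'), x ∈ B k₁ T := by
    intro x hx
    have hx' := (Polynomial.mem_rootSet'.1 hx).2
    have h1 : minpoly k' α = (minpoly (Algebra.adjoin k₁ {T}) α).map (algebraMap _ k') :=
      minpoly.isIntegrallyClosed_eq_field_fractions k' (AlgebraicClosure k') hαB
    refine ⟨minpoly (Algebra.adjoin k₁ {T}) α, minpoly.monic hαB, ?_⟩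
    rw [h1] at hx'
    rw [← Polynomial.aeval_def]
    rwa [Polynomial.aeval_map_algebraMap] at hx'
  have hα0 : IsIntegral k' α := (Algebra.IsAlgebraic.isAlgebraic α).isIntegral
  have hne : minpoly k' α ≠ 0 := minpoly.ne_zero hα0
  let R : Finset (AlgebraicClosure k') := ((minpoly k' α).rootSet_finite (AlgebraicClosure k')).toFinset
  have hR : ∀ x, x ∈ R ↔ x ∈ (minpoly k' α).rootSet (AlgebraicClosure k') := fun x =>
    Set.Finite.mem_toFinset _
  let R' : Finset (B k₁ T) := R.attach.image fun x => ⟨x.1, hconj x.1 ((hR _).1 x.2)⟩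
  have hR' : ∀ x : B k₁ T, x ∈ R' ↔ (x : AlgebraicClosure k') ∈ R := by
    intro x
    simp only [R', Finset.mem_image, Finset.mem_attach, true_and]
    constructor
    · rintro ⟨y, rfl⟩
      exact y.2
    · intro hx
      exact ⟨⟨x, hx⟩, rfl⟩
  let Δ : B k₁ T := ∏ q ∈ R'.offDiag, (q.1 - q.2)
  have hΔ : (Δ : AlgebraicClosure k') = ∏ q ∈ R.offDiag, (q.1 - q.2) := by
    simp only [Δ]
    have h0 : ((∏ q ∈ R'.offDiag, (q.1 - q.2) : B k₁ T) : AlgebraicClosure k') =
        ∏ q ∈ R'.offDiag, ((q.1 : AlgebraicClosure k') - q.2) := map_prod (B k₁ T).subtype _ _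
    rw [h0]
    refine Finset.prod_bij (fun q _ => ((q.1 : AlgebraicClosure k'), (q.2 : AlgebraicClosure k'))) ?_ ?_ ?_ ?_
    · intro q hq
      rw [Finset.mem_offDiag] at hq ⊢
      exact ⟨(hR' _).1 hq.1, (hR' _).1 hq.2.1, fun h => hq.2.2 (Subtype.ext h)⟩
    · intro q _ q' _ h
      rw [Prod.mk.injEq] at h
      exact Prod.ext (Subtype.ext h.1) (Subtype.ext h.2)
    · rintro ⟨x, y⟩ hq
      rw [Finset.mem_offDiag] at hq
      refine ⟨(⟨x, hconj x ((hR _).1 hq.1)⟩, ⟨y, hconj y ((hR _).1 hq.2.1)⟩), ?_, rfl⟩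
      rw [Finset.mem_offDiag]
      exact ⟨(hR' _).2 hq.1, (hR' _).2 hq.2.1, fun h => hq.2.2 (congrArg Subtype.val h)⟩
    · intro q _
      rfl
  have hΔ0 : (Δ : AlgebraicClosure k') ≠ 0 := by
    rw [hΔ, Finset.prod_ne_zero_iff]
    intro q hq
    rw [Finset.mem_offDiag] at hq
    exact sub_ne_zero.2 hq.2.2
  have hgR : ∀ (g : AlgebraicClosure k' ≃ₐ[k'] AlgebraicClosure k') x, x ∈ R → g x ∈ R := by
    intro g x hx
    rw [hR, Polynomial.mem_rootSet'] at hx ⊢
    refine ⟨hx.1, ?_⟩
    have := congrArg g hx.2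
    rw [map_zero, ← AlgEquiv.coe_toAlgHom, ← Polynomial.aeval_algHom_apply] at this
    exact this
  have hinv : ∀ g : AlgebraicClosure k' ≃ₐ[k'] AlgebraicClosure k', g (Δ : AlgebraicClosure k') = Δ := by
    intro g
    rw [hΔ, map_prod]
    refine Finset.prod_bij (fun q _ => (g q.1, g q.2)) ?_ ?_ ?_ ?_
    · intro q hq
      rw [Finset.mem_offDiag] at hq ⊢
      exact ⟨hgR g _ hq.1, hgR g _ hq.2.1, fun h => hq.2.2 (g.injective h)⟩
    · intro q _ q' _ h
      rw [Prod.mk.injEq] at h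
      exact Prod.ext (g.injective h.1) (g.injective h.2)
    · rintro ⟨x, y⟩ hq
      rw [Finset.mem_offDiag] at hq
      refine ⟨(g.symm x, g.symm y), ?_, by simp⟩
      rw [Finset.mem_offDiag]
      exact ⟨hgR g.symm _ hq.1, hgR g.symm _ hq.2.1, fun h => hq.2.2 (g.symm.injective h)⟩
    · intro q _
      rw [map_sub]
  obtain ⟨δ, hδ⟩ := (InfiniteGalois.mem_range_algebraMap_iff_fixed (Δ : AlgebraicClosure k')).2 hinv
  have hδint : IsIntegral (Algebra.adjoin k₁ {T}) δ := by
    have h1 : IsIntegral (Algebra.adjoin k₁ {T}) (Δ : AlgebraicClosure k') := Δ.2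
    rw [← hδ] at h1
    exact (isIntegral_algebraMap_iff (algebraMap k' (AlgebraicClosure k')).injective).1 h1
  obtain ⟨δ', hδ'⟩ := IsIntegrallyClosed.isIntegral_iff.1 hδint
  obtain ⟨D, hD⟩ : ∃ D : k₁[X], aeval T D = δ := by
    have h1 : δ ∈ Algebra.adjoin k₁ {T} := by
      rw [← hδ']
      exact δ'.2
    rw [Algebra.adjoin_singleton_eq_range_aeval] at h1
    obtain ⟨D, hD⟩ := h1
    exact ⟨D, hD⟩
  have hD0 : D ≠ 0 := by
    rintro rfl
    apply hΔ0
    rw [← hδ, ← hD, map_zero, map_zero]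
  obtain ⟨t₀, ht₀⟩ : ∃ t₀ : k₁, D.eval t₀ ≠ 0 := by
    by_contra hcon
    push Not at hcon
    exact hD0 (Polynomial.zero_of_eval_zero D hcon)
  refine ⟨t₀, fun π hπ g g' h h' heq => ?_⟩
  -- the specialisation on polynomials
  have hpol : ∀ P : k₁[X], algebraMap k' (AlgebraicClosure k') (aeval T P) ∈ B k₁ T := by
    intro P
    have h1 : aeval T P ∈ Algebra.adjoin k₁ {T} := by
      rw [Algebra.adjoin_singleton_eq_range_aeval]
      exact ⟨P, rfl⟩
    have h2 : IsIntegral (Algebra.adjoin k₁ {T})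
      (algebraMap (Algebra.adjoin k₁ {T}) (AlgebraicClosure k') ⟨_, h1⟩) := isIntegral_algebraMap
    exact h2
  let ψ : k₁[X] →+* B k₁ T := RingHom.codRestrict
    ((algebraMap k' (AlgebraicClosure k')).comp (aeval (R := k₁) T : k₁[X] →ₐ[k₁] k').toRingHom)
    (B k₁ T) hpol
  have hψ : π.comp ψ = (algebraMap k₁ (AlgebraicClosure k₁)).comp (evalRingHom t₀) := by
    apply Polynomial.ringHom_ext
    · intro c
      have h1 : algebraMap k' (AlgebraicClosure k') (aeval T (C c)) =
          e (algebraMap k₁ (AlgebraicClosure k₁) c) := by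
        rw [e.commutes, aeval_C, ← IsScalarTower.algebraMap_apply]
      have h2 : e (algebraMap k₁ (AlgebraicClosure k₁) c) ∈ B k₁ T := by
        rw [← h1]
        exact hpol _
      have h3 := hπ.1 (algebraMap k₁ (AlgebraicClosure k₁) c) h2
      have h4 : ψ (C c) = ⟨e (algebraMap k₁ (AlgebraicClosure k₁) c), h2⟩ := Subtype.ext h1
      rw [RingHom.comp_apply, h4, h3]
      simp
    · have h1 : algebraMap k' (AlgebraicClosure k') (aeval (R := k₁) T X) =
          algebraMap k' (AlgebraicClosure k') T := by rw [aeval_X]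
      have h2 : algebraMap k' (AlgebraicClosure k') T ∈ B k₁ T := by
        rw [← h1]
        exact hpol _
      have h3 := hπ.2 h2
      have h4 : ψ X = ⟨algebraMap k' (AlgebraicClosure k') T, h2⟩ := Subtype.ext h1
      rw [RingHom.comp_apply, h4, h3]
      simp
  have hπΔ : π Δ ≠ 0 := by
    have h1 : Δ = ψ D := Subtype.ext (by
      rw [← hδ, ← hD]
      rfl)
    have h2 : π (ψ D) = algebraMap k₁ (AlgebraicClosure k₁) (D.eval t₀) := by
      rw [← RingHom.comp_apply, hψ]
      rfl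
    rw [h1, h2]
    exact (map_ne_zero_iff _ (algebraMap k₁ (AlgebraicClosure k₁)).injective).2 ht₀
  by_contra hcon
  have hmem : ∀ g : AlgebraicClosure k' ≃ₐ[k'] AlgebraicClosure k', g α ∈ R := by
    intro g
    apply hgR
    rw [hR, Polynomial.mem_rootSet']
    exact ⟨by
      rw [Ne, Polynomial.map_eq_zero]
      exact hne, minpoly.aeval k' α⟩
  simp only [Δ] at hπΔ
  rw [map_prod, Finset.prod_ne_zero_iff] at hπΔ
  refine hπΔ (⟨g α, h⟩, ⟨g' α, h'⟩) ?_ ?_
  · rw [Finset.mem_offDiag]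
    exact ⟨(hR' _).2 (hmem g), (hR' _).2 (hmem g'), fun h => hcon (congrArg Subtype.val h)⟩
  · rw [map_sub, heq, sub_self]

end Pool.Agent.N890.FG.UNR
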