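import Pool.Agent.N890.FG.SecK
import Pool.Agent.N890.FG.STEP
import Pool.Agent.N890.FG.BAS
import Pool.Agent.N890.FG.SPX
import Pool.Agent.N890.FG.CNJ
import Pool.Agent.N890.FG.UNR
import Pool.Agent.N890.FG.LIM
import Pool.Agent.N890.FG.TRN
import Pool.Agent.N890.FG.CHG
import Pool.Agent.N890.FG.LOF
import Pool.Agent.N890.FG.FNQ
import Pool.Agent.N890.FG.TFN
import Pool.Agent.N890.FG.TOR
import Pool.Agent.N890.FG.ISO
import Pool.Agent.N890.FG.START
import Pool.Agent.N890.FG.NST
import Pool.Agent.N890.DU.All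

/-! Project FG (helper890): the specialisation theorem. -/

set_option autoImplicit false

namespace Pool.Agent.N890.FG

open NumberField WeierstrassCurve IsDedekindDomain Pool.Agent.TH942 Pool.Agent.TH954
open Pool.Agent.W620.SC Pool.Agent.N89.CI Pool.Agent.N890.FD Pool.Agent.N890.US

theorem s_FNQ : S_FNQ := FNQ.t_FNQ
theorem s_TFN : S_TFN := TFN.t_TFN
theorem s_TOR : S_TOR := TOR.t_TOR
theorem s_ISO : S_ISO := ISO.t_ISO
theorem s_START : S_START := START.t_START
theorem s_NST' : S_STEP → S_ISO → S_NST := NST.t_NST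

theorem s_NST : S_NST :=
  s_NST' (STEP.t_STEP BAS.t_BAS SPX.t_SPX CNJ.t_CNJ UNR.t_UNR LIM.t_LIM TRN.t_TRN CHG.t_CHG
    LOF.t_LOF s_FNQ s_TFN s_TOR) s_ISO

/-- the variables generate the field of rational functions -/
lemma adjoin_vars (F : Type) [Field F] (n : ℕ) :
    IntermediateField.adjoin F (Set.range fun i : Fin n =>
      algebraMap (MvPolynomial (Fin n) F) (FractionRing (MvPolynomial (Fin n) F))
        (MvPolynomial.X i)) = ⊤ := by
  rw [eq_top_iff]
  intro z _
  obtain ⟨x, y, hy, rfl⟩ := IsFractionRing.div_surjective (A := MvPolynomial (Fin n) F) z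
  have h : ∀ f : MvPolynomial (Fin n) F,
      algebraMap (MvPolynomial (Fin n) F) (FractionRing (MvPolynomial (Fin n) F)) f ∈
      IntermediateField.adjoin F (Set.range fun i : Fin n =>
        algebraMap (MvPolynomial (Fin n) F) (FractionRing (MvPolynomial (Fin n) F))
          (MvPolynomial.X i)) := by
    intro f
    induction f using MvPolynomial.induction_on with
    | C c =>
      have h1 : algebraMap (MvPolynomial (Fin n) F) (FractionRing (MvPolynomial (Fin n) F))
          (MvPolynomial.C c) = algebraMap F _ c := by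
        rw [IsScalarTower.algebraMap_apply F (MvPolynomial (Fin n) F)
          (FractionRing (MvPolynomial (Fin n) F))]
        rfl
      rw [h1]
      exact IntermediateField.algebraMap_mem _ c
    | add p q hp hq =>
      rw [map_add]
      exact add_mem hp hq
    | mul_X p i hp =>
      rw [map_mul]
      exact mul_mem hp (IntermediateField.subset_adjoin F _ ⟨i, rfl⟩)
  exact div_mem (h x) (h y)

lemma indep_vars (F : Type) [Field F] (n : ℕ) :
    AlgebraicIndependent F (fun i : Fin n =>
      algebraMap (MvPolynomial (Fin n) F) (FractionRing (MvPolynomial (Fin n) F))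
        (MvPolynomial.X i)) := by
  have h := (MvPolynomial.algebraicIndependent_X (Fin n) F).map'
    (f := IsScalarTower.toAlgHom F (MvPolynomial (Fin n) F)
      (FractionRing (MvPolynomial (Fin n) F)))
    (IsFractionRing.injective (MvPolynomial (Fin n) F) (FractionRing (MvPolynomial (Fin n) F)))
  exact h

open scoped Classical in
/-- the class over a number field `F` of a section over a subfield `k` of `F (T 1, …, T n)` -/
theorem main {K F k : Type} [Field K] [NumberField K] [Field F]
    [NumberField F] [Algebra K F] [Field k] [Algebra K k]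
    (n : ℕ) (ψ : k →+* FractionRing (MvPolynomial (Fin n) F))
    (hψ : ∀ x : K, ψ (algebraMap K k x) = algebraMap F _ (algebraMap K F x))
    {r m : ℕ} {ι L' : Type} [Fintype ι] (a b : Fin r → ℤ)
    (hdisc : ∀ i, 4 * a i ^ 3 + 27 * b i ^ 2 ≠ 0) (G' : L' → Pol (𝓞 K) r m ι)
    (d : L' → Fin r → ℕ) (e : L' → ℕ) (hG' : ∀ l, MHomog (G' l) (d l) (e l)) (N : ℕ) (hN : 1 ≤ N)
    (t : ι → 𝓞 K) {L Ω M B : Type} [Field L] [Field Ω] [Field M]
    [Field B] [Algebra k L] [Algebra L Ω] [Algebra k Ω] [IsScalarTower k L Ω] [Algebra L M]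
    [Algebra k M] [IsScalarTower k L M] [Algebra k B] [IsAlgClosure L Ω] [IsAlgClosure k B]
    (emb : M →ₐ[L] Ω) (P : ∀ i, ((sw (a i : k) (b i : k)).baseChange L).toAffine.Point)
    (hP : PtOver ((algebraMap K k).comp (algebraMap (𝓞 K) K)) (a := a) (b := b) G'
      (fun s => algebraMap K k (algebraMap (𝓞 K) K (t s))) L P)
    (s : GalSection k L M B)
    (hdiv : (∀ i, ∃ Q : ((sw (a i : k) (b i : k)).baseChange M).toAffine.Point,
      N • Q = pm (sw (a i : k) (b i : k)) (IsScalarTower.toAlgHom k L M) (P i)) ∨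
      ∃ U : Set (ValuationSubring L), (∀ O ∈ U, ∀ x : k, algebraMap k L x ∈ O) ∧
        unramified L Ω U ≤ emb.fieldRange)
    (hp : ∀ (w : HeightOneSpectrum (𝓞 F)) [Algebra k (w.adicCompletion F)],
      (∀ x : K, algebraMap k (w.adicCompletion F) (algebraMap K k x) =
        algebraMap F (w.adicCompletion F) (algebraMap K F x)) →
      ∃ p : Plc k M (AlgebraicClosure (w.adicCompletion F)),
        s.GivenBy (w.adicCompletion F) p) :
    ∃ η, IsSel ((algebraMap K F).comp (algebraMap (𝓞 K) K)) a b G'
      (fun s => algebraMap K F (algebraMap (𝓞 K) K (t s))) N η :=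
  isSel_of_sectionK s_START s_NST n _ (indep_vars F n) (adjoin_vars F n) ψ hψ a b hdisc G' d e hG'
    N hN t emb P hP s hdiv (fun w φ hφ => by
      letI : Algebra k (w.adicCompletion F) := φ.toAlgebra
      exact hp w hφ)

end Pool.Agent.N890.FG
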