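import Pool.Agent.N890.FG.Stm0
import Pool.Agent.TH954.Descent

/-!
Project FG (helper890), pages MP_8312c9_nt and MP_e66f84_ag: the statements of the pieces which use
elliptic curves.
-/

set_option autoImplicit false

namespace Pool.Agent.N890.FG

open NumberField WeierstrassCurve IsDedekindDomain Pool.Agent.TH942 Pool.Agent.TH954 Filter
open scoped Topology

/-! ### Selmer classes over extensions of `F` -/

section defs

variable {F : Type} [Field F]

open scoped Classical in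
/-- continuous cocycles of the absolute Galois group of `k` with values in points of a curve
over `F` -/
def IsCoc (E : WeierstrassCurve F) (k : Type) [Field k] [Algebra F k]
    (ξ : (AlgebraicClosure k ≃ₐ[k] AlgebraicClosure k) → AlgPt E k) : Prop :=
  (∀ σ τ, ξ (σ * τ) = ξ σ + act E σ (ξ τ)) ∧
    ∃ M : IntermediateField k (AlgebraicClosure k), FiniteDimensional k M ∧
      ∀ σ τ, (∀ x ∈ M, σ x = τ x) → ξ σ = ξ τ

open scoped Classical in
/-- the local condition for the embedding `φ` of `k` in `L`; `X` is the set of the coordinates of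
the points of a variety over `L` -/
def Loc {r : ℕ} (E : Fin r → WeierstrassCurve F) (N : ℕ) {k : Type} [Field k] [Algebra F k]
    (ξ : ∀ i, (AlgebraicClosure k ≃ₐ[k] AlgebraicClosure k) → AlgPt (E i) k)
    {L : Type} [Field L] [Algebra F L] (φ : k →ₐ[F] L) (X : (Fin r → Fin 3 → L) → Prop) : Prop :=
  ∃ (ι : AlgebraicClosure k →ₐ[F] AlgebraicClosure L)
    (P : ∀ i, ((E i).baseChange L).toAffine.Point) (Q : ∀ i, AlgPt (E i) L),
    (∀ x, ι (algebraMap k _ x) = algebraMap L _ (φ x)) ∧ X (fun i => crd (P i)) ∧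
    (∀ i, N • Q i = incl (E i) L (P i)) ∧
    ∀ i (σ : AlgebraicClosure L ≃ₐ[L] AlgebraicClosure L)
      (τ : AlgebraicClosure k ≃ₐ[k] AlgebraicClosure k), (∀ z, ι (τ z) = σ (ι z)) →
      pm (E i) ι (ξ i τ) = act (E i) σ (Q i) - Q i

open scoped Classical in
/-- Selmer classes over `k`, with local conditions for all embeddings of `k` in the fields `L w` -/
def SelK {r : ℕ} (E : Fin r → WeierstrassCurve F) (N : ℕ) (k : Type) [Field k] [Algebra F k]
    {W : Type} (L : W → Type) [∀ w, Field (L w)] [∀ w, Algebra F (L w)]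
    (X : ∀ w, (Fin r → Fin 3 → L w) → Prop)
    (ξ : ∀ i, (AlgebraicClosure k ≃ₐ[k] AlgebraicClosure k) → AlgPt (E i) k) : Prop :=
  (∀ i, IsCoc (E i) k (ξ i)) ∧ (∀ i σ, N • ξ i σ = 0) ∧ ∀ w (φ : k →ₐ[F] L w), Loc E N ξ φ (X w)

open scoped Classical in
/-- `E(L) / N` is finite -/
def FinQ (E : WeierstrassCurve F) (N : ℕ) (L : Type) [Field L] [Algebra F L] : Prop :=
  ∃ (n : ℕ) (S : Fin n → (E.baseChange L).toAffine.Point),
    ∀ P : (E.baseChange L).toAffine.Point, ∃ i R, P = S i + N • R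

end defs

open scoped Classical in
/-- CHG. The local condition does not depend on the embedding of the algebraic closure. -/
def S_CHG : Prop := ∀ (F k L : Type) [Field F] [Field k] [CharZero k] [Field L] [Algebra F k]
  [Algebra F L] (E : WeierstrassCurve F) (N : ℕ)
  (ξ : (AlgebraicClosure k ≃ₐ[k] AlgebraicClosure k) → AlgPt E k),
  (∀ σ τ, ξ (σ * τ) = ξ σ + act E σ (ξ τ)) → (∀ σ, N • ξ σ = 0) →
  ∀ (ι ι' : AlgebraicClosure k →ₐ[F] AlgebraicClosure L) (φ : k →+* L),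
  (∀ x, ι (algebraMap k _ x) = algebraMap L _ (φ x)) →
  (∀ x, ι' (algebraMap k _ x) = algebraMap L _ (φ x)) →
  ∀ (P : (E.baseChange L).toAffine.Point) (Q : AlgPt E L), N • Q = incl E L P →
  (∀ (σ : AlgebraicClosure L ≃ₐ[L] AlgebraicClosure L)
      (τ : AlgebraicClosure k ≃ₐ[k] AlgebraicClosure k), (∀ z, ι (τ z) = σ (ι z)) →
      pm E ι (ξ τ) = act E σ Q - Q) →
  ∃ Q' : AlgPt E L, N • Q' = incl E L P ∧
    ∀ (σ : AlgebraicClosure L ≃ₐ[L] AlgebraicClosure L)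
      (τ : AlgebraicClosure k ≃ₐ[k] AlgebraicClosure k), (∀ z, ι' (τ z) = σ (ι' z)) →
      pm E ι' (ξ τ) = act E σ Q' - Q'

/-- FNQ. Weak Mordell-Weil theorem over the completions of a number field. -/
def S_FNQ : Prop := ∀ (F : Type) [Field F] [NumberField F] (w : HeightOneSpectrum (𝓞 F))
  (a b : ℤ), 4 * a ^ 3 + 27 * b ^ 2 ≠ 0 → ∀ N : ℕ, 1 ≤ N →
  FinQ (sw (a : F) (b : F)) N (w.adicCompletion F)

open scoped Classical in
/-- TFN. Finiteness of the torsion over the algebraic closures. -/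
def S_TFN : Prop := ∀ (F L : Type) [Field F] [Field L] [CharZero L] [Algebra F L]
  (a b : ℤ), 4 * a ^ 3 + 27 * b ^ 2 ≠ 0 → ∀ N : ℕ, 1 ≤ N →
  {Q : AlgPt (sw (a : F) (b : F)) L | N • Q = 0}.Finite

open scoped Classical in
/-- TOR. The torsion over the algebraic closure of `k'` comes from the algebraic closure of `k₁`. -/
def S_TOR : Prop := ∀ (F k₁ k' : Type) [Field F] [Field k₁] [CharZero k₁] [Field k'] [Algebra F k₁]
  [Algebra F k'] [Algebra k₁ k'] [IsScalarTower F k₁ k']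
  (e : AlgebraicClosure k₁ →ₐ[k₁] AlgebraicClosure k')
  (e' : AlgebraicClosure k₁ →ₐ[F] AlgebraicClosure k'), (∀ y, e' y = e y) →
  ∀ (a b : ℤ), 4 * a ^ 3 + 27 * b ^ 2 ≠ 0 → ∀ N : ℕ, 1 ≤ N →
  ∀ Q : AlgPt (sw (a : F) (b : F)) k', N • Q = 0 → ∃ R, pm (sw (a : F) (b : F)) e' R = Q

open scoped Classical in
/-- STEP. Specialisation of a Selmer class from `k₁ (T)` to `k₁`. -/
def S_STEP : Prop := ∀ (F k₁ k' : Type) [Field F] [NumberField F] [Field k₁] [CharZero k₁] [Field k']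
  [Algebra F k₁] [Algebra F k'] [Algebra k₁ k'] [IsScalarTower F k₁ k'] [Countable k₁] (T : k'),
  Rat k₁ k' T → ∀ (r : ℕ) (a b : Fin r → ℤ), (∀ i, 4 * a i ^ 3 + 27 * b i ^ 2 ≠ 0) →
  ∀ N : ℕ, 1 ≤ N → ∀ (X : ∀ w : HeightOneSpectrum (𝓞 F),
    (Fin r → Fin 3 → w.adicCompletion F) → Prop),
  (∃ ξ, SelK (fun i => sw (a i : F) (b i : F)) N k'
    (fun w : HeightOneSpectrum (𝓞 F) => w.adicCompletion F) X ξ) →
  ∃ η, SelK (fun i => sw (a i : F) (b i : F)) N k₁
    (fun w : HeightOneSpectrum (𝓞 F) => w.adicCompletion F) X η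

open scoped Classical in
/-- ISO. Isomorphic fields. -/
def S_ISO : Prop := ∀ (F k k' : Type) [Field F] [Field k] [Field k'] [Algebra F k] [Algebra F k'],
  (k' ≃ₐ[F] k) → ∀ (r : ℕ) (a b : Fin r → ℤ) (N : ℕ) (W : Type) (L : W → Type)
  [∀ w, Field (L w)] [∀ w, Algebra F (L w)] (X : ∀ w, (Fin r → Fin 3 → L w) → Prop),
  (∃ ξ, SelK (fun i => sw (a i : F) (b i : F)) N k' L X ξ) →
  ∃ η, SelK (fun i => sw (a i : F) (b i : F)) N k L X η

open scoped Classical in
/-- NST. From `F (T 1, …, T n)` to `F`. -/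
def S_NST : Prop := ∀ (F k' : Type) [Field F] [NumberField F] [Field k'] [Algebra F k'] (n : ℕ)
  (x : Fin n → k'), AlgebraicIndependent F x → IntermediateField.adjoin F (Set.range x) = ⊤ →
  ∀ (r : ℕ) (a b : Fin r → ℤ), (∀ i, 4 * a i ^ 3 + 27 * b i ^ 2 ≠ 0) →
  ∀ N : ℕ, 1 ≤ N → ∀ (X : ∀ w : HeightOneSpectrum (𝓞 F),
    (Fin r → Fin 3 → w.adicCompletion F) → Prop),
  (∃ ξ, SelK (fun i => sw (a i : F) (b i : F)) N k'
    (fun w : HeightOneSpectrum (𝓞 F) => w.adicCompletion F) X ξ) →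
  ∃ η, SelK (fun i => sw (a i : F) (b i : F)) N F
    (fun w : HeightOneSpectrum (𝓞 F) => w.adicCompletion F) X η

open scoped Classical in
/-- START. From a class over a subfield `k` of `k'` to `k'`. -/
def S_START : Prop := ∀ (F k k' : Type) [Field F] [Field k] [CharZero k] [Field k'] [Algebra F k']
  [Algebra k k'] (r : ℕ) (a b : Fin r → ℤ), (∀ i, 4 * a i ^ 3 + 27 * b i ^ 2 ≠ 0) → ∀ (N : ℕ)
  (ξ : ∀ i, (AlgebraicClosure k ≃ₐ[k] AlgebraicClosure k) → AlgPt (sw (a i : k) (b i : k)) k),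
  (∀ i, IsCocycle (sw (a i : k) (b i : k)) (ξ i)) → (∀ i σ, N • ξ i σ = 0) →
  ∀ (W : Type) (L : W → Type) [∀ w, Field (L w)] [∀ w, Algebra F (L w)]
  (X : ∀ w, (Fin r → Fin 3 → L w) → Prop),
  (∀ w (Φ : k' →ₐ[F] L w),
    letI : Algebra k (L w) := ((Φ : k' →+* L w).comp (algebraMap k k')).toAlgebra
    ∃ (ι₀ : AlgebraicClosure k →ₐ[k] AlgebraicClosure (L w))
      (P : ∀ i, ((sw (a i : k) (b i : k)).baseChange (L w)).toAffine.Point)
      (Q : ∀ i, AlgPt (sw (a i : k) (b i : k)) (L w)),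
      X w (fun i => crd (P i)) ∧
      (∀ i, N • Q i = incl (sw (a i : k) (b i : k)) (L w) (P i)) ∧
      ∀ i σ τ, Compat ι₀ σ τ → pm (sw (a i : k) (b i : k)) ι₀ (ξ i τ) =
        act (sw (a i : k) (b i : k)) σ (Q i) - Q i) →
  ∃ ξ', SelK (fun i => sw (a i : F) (b i : F)) N k' L X ξ'

end Pool.Agent.N890.FG
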