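import Mathlib

/-!
Project FG (helper890), pages MP_8312c9_nt and MP_e66f84_ag: the statements of the pieces which use
only Mathlib.

Selmer sets and sections over finitely generated fields. `F` is a number field, `k' = k₁ (T)` a field
of rational functions over a field `k₁` containing `F`. A Selmer class over `k'`, with local conditions
for all embeddings of `k'` in the completions of `F`, is specialised to a Selmer class over `k₁` at a
point `T = t₀` of good reduction: `B` is the ring of the elements of an algebraic closure of `k'` which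
are integral over `k₁ [T]`, and the specialisations are the homomorphisms from `B` to the algebraic
closure of `k₁`. For a completion `L` of `F` the specialisation is a limit of embeddings `T ↦ t j`,
`t j → t₀`, along an ultrafilter.
-/

set_option autoImplicit false

namespace Pool.Agent.N890.FG

open NumberField IsDedekindDomain Filter
open scoped Topology

/-- `v` is an absolute value on the algebraic closure of `L`, invariant under the Galois group, for
which the balls of `L` are uncountable -/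
def LF (L : Type) [Field L] (v : AbsoluteValue (AlgebraicClosure L) ℝ) : Prop :=
  (∀ (σ : AlgebraicClosure L ≃ₐ[L] AlgebraicClosure L) x, v (σ x) = v x) ∧
    ∀ ε : ℝ, 0 < ε → ¬ {x : L | v (algebraMap L (AlgebraicClosure L) x) < ε}.Countable

/-! ### Specialisations -/

section spec

variable (k₁ : Type) {k' : Type} [Field k₁] [Field k'] [Algebra k₁ k']

/-- the elements of the algebraic closure of `k'` which are integral over `k₁ [T]` -/
noncomputable def B (T : k') : Subring (AlgebraicClosure k') :=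
  (integralClosure (Algebra.adjoin k₁ {T}) (AlgebraicClosure k')).toSubring

variable {k₁}

/-- `π` is a specialisation `T ↦ t₀` which is the identity on the algebraic closure of `k₁`,
embedded by `e` -/
def IsSp (e : AlgebraicClosure k₁ →ₐ[k₁] AlgebraicClosure k') (T : k') (t₀ : k₁)
    (π : B k₁ T →+* AlgebraicClosure k₁) : Prop :=
  (∀ y (hy : e y ∈ B k₁ T), π ⟨e y, hy⟩ = y) ∧
  ∀ hT : algebraMap k' (AlgebraicClosure k') T ∈ B k₁ T,
    π ⟨algebraMap k' (AlgebraicClosure k') T, hT⟩ = algebraMap k₁ (AlgebraicClosure k₁) t₀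

end spec

/-- `k'` is the field of rational functions over `k₁` in the variable `T` -/
def Rat (k₁ k' : Type) [Field k₁] [Field k'] [Algebra k₁ k'] (T : k') : Prop :=
  Transcendental k₁ T ∧ IntermediateField.adjoin k₁ {T} = ⊤

/-- BAS. Integral elements: the images of `e`, and `T`; the Galois group acts on `B`. -/
def S_BAS : Prop := ∀ (k₁ k' : Type) [Field k₁] [Field k'] [Algebra k₁ k'] (T : k')
  (e : AlgebraicClosure k₁ →ₐ[k₁] AlgebraicClosure k'),
  (∀ y, e y ∈ B k₁ T) ∧ algebraMap k' (AlgebraicClosure k') T ∈ B k₁ T ∧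
  ∀ (g : AlgebraicClosure k' ≃ₐ[k'] AlgebraicClosure k') x, x ∈ B k₁ T → g x ∈ B k₁ T

/-- SPX. Specialisations exist. -/
def S_SPX : Prop := ∀ (k₁ k' : Type) [Field k₁] [CharZero k₁] [Field k'] [Algebra k₁ k'] (T : k'),
  Rat k₁ k' T → ∀ (e : AlgebraicClosure k₁ →ₐ[k₁] AlgebraicClosure k') (t₀ : k₁),
  ∃ π, IsSp e T t₀ π

/-- CNJ. Specialisations at the same point are conjugate, and all automorphisms `τ` are induced
by automorphisms of the algebraic closure of `k'`. -/
def S_CNJ : Prop := ∀ (k₁ k' : Type) [Field k₁] [CharZero k₁] [Field k'] [Algebra k₁ k'] (T : k'),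
  Rat k₁ k' T → ∀ (e : AlgebraicClosure k₁ →ₐ[k₁] AlgebraicClosure k') (t₀ : k₁)
  (π π' : B k₁ T →+* AlgebraicClosure k₁), IsSp e T t₀ π → IsSp e T t₀ π' →
  ∀ τ : AlgebraicClosure k₁ ≃ₐ[k₁] AlgebraicClosure k₁,
  ∃ g : AlgebraicClosure k' ≃ₐ[k'] AlgebraicClosure k', (∀ y, g (e y) = e (τ y)) ∧
    ∀ x (hx : x ∈ B k₁ T) (hgx : g x ∈ B k₁ T), π' ⟨g x, hgx⟩ = τ (π ⟨x, hx⟩)

/-- UNR. Almost all points are unramified: the specialisations separate the conjugates of an integral
generator of a field containing `M`. -/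
def S_UNR : Prop := ∀ (k₁ k' : Type) [Field k₁] [CharZero k₁] [Field k'] [Algebra k₁ k'] (T : k'),
  Rat k₁ k' T → ∀ (e : AlgebraicClosure k₁ →ₐ[k₁] AlgebraicClosure k')
  (M : IntermediateField k' (AlgebraicClosure k')), FiniteDimensional k' M →
  ∃ α ∈ B k₁ T, M ≤ IntermediateField.adjoin k' {α} ∧ ∃ t₀ : k₁, ∀ π, IsSp e T t₀ π →
    ∀ (g g' : AlgebraicClosure k' ≃ₐ[k'] AlgebraicClosure k') (h : g α ∈ B k₁ T)
      (h' : g' α ∈ B k₁ T), π ⟨g α, h⟩ = π ⟨g' α, h'⟩ → g α = g' α

/-- LIM. Limits of embeddings are specialisations. -/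
def S_LIM : Prop := ∀ (k₁ k' : Type) [Field k₁] [CharZero k₁] [Field k'] [Algebra k₁ k'] (T : k'),
  Rat k₁ k' T → ∀ (e : AlgebraicClosure k₁ →ₐ[k₁] AlgebraicClosure k') (t₀ : k₁)
  (L : Type) [Field L] (v : AbsoluteValue (AlgebraicClosure L) ℝ)
  (ι₀ : AlgebraicClosure k₁ →+* AlgebraicClosure L)
  (ι : ℕ → AlgebraicClosure k' →+* AlgebraicClosure L), (∀ j y, ι j (e y) = ι₀ y) →
  Tendsto (fun j => v (ι j (algebraMap k' _ T) - ι₀ (algebraMap k₁ _ t₀))) atTop (𝓝 0) →
  ∀ 𝒰 : Ultrafilter ℕ, (𝒰 : Filter ℕ) ≤ atTop →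
  ∃ π, IsSp e T t₀ π ∧ ∀ x (hx : x ∈ B k₁ T),
    Tendsto (fun j => v (ι j x - ι₀ (π ⟨x, hx⟩))) 𝒰 (𝓝 0)

/-- TRN. Embeddings of `k'` which map `T` to elements near a given one. -/
def S_TRN : Prop := ∀ (F k₁ k' : Type) [Field F] [Field k₁] [CharZero k₁] [Field k'] [Algebra F k₁]
  [Algebra F k'] [Algebra k₁ k'] [IsScalarTower F k₁ k'] [Countable k₁] (T : k'), Rat k₁ k' T →
  ∀ (L : Type) [Field L] [Algebra F L] (v : AbsoluteValue (AlgebraicClosure L) ℝ), LF L v →
  ∀ (φ₁ : k₁ →ₐ[F] L) (t₀ : k₁), ∃ φ : ℕ → (k' →ₐ[F] L),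
    (∀ j x, φ j (algebraMap k₁ k' x) = φ₁ x) ∧
    Tendsto (fun j => v (algebraMap L (AlgebraicClosure L) (φ j T - φ₁ t₀))) atTop (𝓝 0)

/-- LOF. The completions of a number field. -/
def S_LOF : Prop := ∀ (F : Type) [Field F] [NumberField F] (w : HeightOneSpectrum (𝓞 F)),
  ∃ v, LF (w.adicCompletion F) v

end Pool.Agent.N890.FG
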